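import Pool.Agent.Lib.MP_fcdd89_co.Int

/-!
Operators that act on a set of variables, and operators in two distinguished variables.
-/

set_option autoImplicit false

open Finset MvPolynomial

namespace Pool.Agent.Lib.MP_fcdd89_co.Tw

variable {σ : Type} [DecidableEq σ] {A B : σ → Prop} {α : ℝ} {e : ℕ → σ} {w v t : σ}
  {S T : MvPolynomial σ ℝ →ₗ[ℝ] MvPolynomial σ ℝ} {f g : MvPolynomial σ ℝ}

/-- `T` only sees and only creates variables in `A`. -/
structure Act (A : σ → Prop) (T : MvPolynomial σ ℝ →ₗ[ℝ] MvPolynomial σ ℝ) : Prop where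
  mul : ∀ f g, (∀ t, A t → Free t g) → T (f * g) = T f * g
  free : ∀ f t, ¬ A t → Free t f → Free t (T f)

theorem Act.comm (hS : Act A S) (hT : Act B T) (h : ∀ t, A t → ¬ B t) (f : MvPolynomial σ ℝ) :
    S (T f) = T (S f) := by
  classical
  refine LinearMap.congr_fun (lin_ext (f := S ∘ₗ T) (g := T ∘ₗ S) fun m => ?_) f
  have a : ∀ t, B t → Free t (monomial (m.filter A) (1 : ℝ)) := fun t ht =>
    Free.monomial (Finsupp.filter_apply_neg _ _ fun k => h t k ht) 1
  have c : ∀ t, A t → Free t (monomial (m.filter fun t => ¬ A t) (1 : ℝ)) := fun t ht =>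
    Free.monomial (Finsupp.filter_apply_neg (fun t => ¬ A t) _ (not_not.2 ht)) 1
  have : (monomial m 1 : MvPolynomial σ ℝ) =
      monomial (m.filter A) 1 * monomial (m.filter fun t => ¬ A t) 1 := by
    rw [monomial_mul, one_mul, Finsupp.filter_add_filter_not]
  rw [LinearMap.comp_apply, LinearMap.comp_apply, this, hS.mul _ _ c, mul_comm (monomial _ _),
    hT.mul _ _ a, mul_comm (T _), hS.mul _ _ fun t ht => hT.free _ t (h t ht) (c t ht),
    mul_comm (S _) (monomial _ _), hT.mul _ _ fun t ht => hS.free _ t (fun k => h t k ht) (a t ht),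
    mul_comm]

theorem Act.X_mul (hS : Act A S) (h : ¬ A t) (f : MvPolynomial σ ℝ) : S (X t * f) = X t * S f := by
  rw [mul_comm, hS.mul _ (X t) fun s hs => Free.X fun k => h (k ▸ hs), mul_comm]

theorem Act.add (hS : Act A S) (hT : Act A T) : Act A (S + T) :=
  ⟨fun f g h => by simp only [LinearMap.add_apply, hS.mul f g h, hT.mul f g h, add_mul],
    fun f t h k => (hS.free f t h k).add (hT.free f t h k)⟩

theorem Act.smul (hS : Act A S) (c : ℝ) : Act A (c • S) :=
  ⟨fun f g h => by simp only [LinearMap.smul_apply, hS.mul f g h, smul_mul_assoc],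
    fun f t h k => (hS.free f t h k).smul c⟩

theorem Act.comp (hS : Act A S) (hT : Act A T) : Act A (S ∘ₗ T) :=
  ⟨fun f g h => by simp only [LinearMap.comp_apply, hT.mul f g h, hS.mul _ g h],
    fun f t h k => hS.free _ t h (hT.free f t h k)⟩

theorem act_W {q : ℕ → MvPolynomial σ ℝ} (hw : A w) (hq : ∀ a t, ¬ A t → Free t (q a)) :
    Act A (W w q) :=
  ⟨fun f _ h => W_mul_free q f (h w hw), fun _ t h k => free_W (fun a => hq a t h) (.inr k)⟩

theorem free_A (hw : A w) (h : ¬ A t) : Free t (X w : MvPolynomial σ ℝ) :=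
  Free.X fun k => h (k ▸ hw)

theorem act_X (hw : A w) : Act A (LinearMap.mulLeft ℝ (X w : MvPolynomial σ ℝ)) :=
  ⟨fun _ _ _ => (mul_assoc _ _ _).symm, fun _ _ h k => (free_A hw h).mul k⟩

theorem act_der {D : Derivation ℝ (MvPolynomial σ ℝ) (MvPolynomial σ ℝ)}
    (h0 : ∀ s, ¬ A s → D (X s) = 0) (h1 : ∀ s t, ¬ A t → Free t (D (X s))) :
    Act A D.toLinearMap := by
  refine ⟨fun f g h => ?_, fun f t h k => ?_⟩
  · have : D g = 0 := der_zero fun s => (em (A s)).imp (h s) (h0 s)
    simp [Derivation.leibniz, this, mul_comm]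
  · refine free_ind (P := fun f => Free t (D f)) (by simpa using Free.zero t)
      (fun f g a b => by simpa using a.add b) (fun c f a => by simpa using a.smul c)
      (fun g s hs hg a => ?_) k
    rw [Derivation.leibniz]
    exact (hg.mul (h1 s t h)).add ((Free.X hs).mul a)

theorem act_Dr (he : Function.Injective e) (hA : ∀ k, A (e k)) : Act A (Dr α e).toLinearMap :=
  act_der (fun s hs => Dr_out α fun k c => hs (c ▸ hA k)) fun s t h => by
    by_cases a : ∃ k, e k = s
    · obtain ⟨k, rfl⟩ := a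
      rw [Dr_e α he, dv]
      split_ifs
      exacts [(free_A (hA 0) h).smul _, ((free_A (hA 0) h).pow _).smul _]
    · rw [Dr_out α (not_exists.1 a)]
      exact Free.zero t

theorem act_pderiv (hw : A w) : Act A (pderiv w : Derivation ℝ (MvPolynomial σ ℝ) _).toLinearMap :=
  act_der (fun s hs => pderiv_X_of_ne fun c => hs (c ▸ hw)) fun s t _ => by
    rw [pderiv_X, Pi.single_apply]
    split_ifs
    exacts [Free.one t, Free.zero t]

theorem act_Lx (he : Function.Injective e) (hA : ∀ k, A (e k)) : Act A (Lx α e) :=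
  (act_Dr he hA).add (act_W (hA 0) fun _ _ h => Free.sum _ fun _ _ =>
    (free_A (hA _) h).mul ((free_A (hA 0) h).pow _))

theorem act_Bt (hA : ∀ k, A (e k)) : Act A (Bt e) :=
  act_W (hA 0) fun a t h => by
    split_ifs
    exacts [Free.zero t, free_A (hA a) h]

theorem act_P0 (hw : A w) : Act A (P0 w) :=
  act_W hw fun a t _ => by
    split_ifs
    exacts [Free.one t, Free.zero t]

theorem act_Sh (hw : A w) : Act A (Sh w) :=
  act_W hw fun a t h => by
    split_ifs
    exacts [Free.zero t, (free_A hw h).pow _]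

theorem act_rename {ρ : σ → σ} (h0 : ∀ s, ¬ A s → ρ s = s) (h1 : ∀ s, A s → A (ρ s)) :
    Act A (rename ρ : MvPolynomial σ ℝ →ₐ[ℝ] _).toLinearMap := by
  refine ⟨fun f g h => ?_, fun f t h k => free_rename fun s c => ?_⟩
  · have : rename ρ g = g := by
      conv_rhs => rw [← rename_id_apply g]
      refine hom_congr_vars (f₁ := (rename ρ).toRingHom) (f₂ := (rename id).toRingHom)
        (by ext; simp) (fun s hs _ => ?_) rfl
      obtain ⟨d, b, c⟩ := (mem_vars_iff_mem_support s).1 hs
      have := h0 s fun a => Finsupp.mem_support_iff.1 c (h s a d (mem_support_iff.1 b))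
      simp [this]
    simp [this]
  · have : s = t := by
      by_cases a : A s
      · exact absurd (c ▸ h1 s a) h
      · rw [← c, h0 s a]
    exact this ▸ k

/-- The exchange of two variables. -/
noncomputable def sw (w v : σ) : MvPolynomial σ ℝ →ₐ[ℝ] MvPolynomial σ ℝ := rename (Equiv.swap w v)

theorem act_sw (hw : A w) (hv : A v) : Act A (sw w v).toLinearMap :=
  act_rename (fun s h => Equiv.swap_apply_of_ne_of_ne (fun c => h (c ▸ hw)) fun c => h (c ▸ hv))
    fun s h => by
      rw [Equiv.swap_apply_def]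
      split_ifs <;> assumption

theorem sw_comm (w v : σ) : sw w v = sw v w := by rw [sw, sw, Equiv.swap_comm]

@[simp] theorem sw_left : sw w v (X w) = X v := by simp [sw]

@[simp] theorem sw_right : sw w v (X v) = X w := by simp [sw]

theorem sw_out (a : t ≠ w) (b : t ≠ v) : sw w v (X t) = X t := by
  simp [sw, Equiv.swap_apply_of_ne_of_ne a b]

@[simp] theorem sw_sw (f : MvPolynomial σ ℝ) : sw w v (sw w v f) = f := by
  rw [sw, rename_rename, show (Equiv.swap w v ∘ Equiv.swap w v) = id from funext (by simp),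
    rename_id_apply]

theorem sw_free (a : Free w g) (b : Free v g) : sw w v g = g := by
  simpa using (act_sw (A := fun t => t = w ∨ t = v) (.inl rfl) (.inr rfl)).mul 1 g
    fun t h => by rcases h with rfl | rfl <;> assumption

theorem free_sw (a : Free w g) : Free v (sw w v g) :=
  free_rename fun s c => by
    obtain rfl : s = w := by simpa [Equiv.swap_apply_eq_iff] using c
    exact a

theorem sw_W (q : ℕ → MvPolynomial σ ℝ) (f : MvPolynomial σ ℝ) :
    sw w v (W w q f) = W v (fun a => sw w v (q a)) (sw w v f) :=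
  LinearMap.congr_fun (lin_ext_free w (f := (sw w v).toLinearMap ∘ₗ W w q)
    (g := W v (fun a => sw w v (q a)) ∘ₗ (sw w v).toLinearMap) fun a p hp => by
      simp [W_pow_mul _ _ hp, W_pow_mul _ _ (free_sw hp)]) f

theorem lin_ext2 {M : Type} [AddCommGroup M] [Module ℝ M] (w v : σ)
    {S T : MvPolynomial σ ℝ →ₗ[ℝ] M} (h : ∀ a c p, Free w p → Free v p →
      S (X w ^ a * (X v ^ c * p)) = T (X w ^ a * (X v ^ c * p))) : S = T :=
  lin_ext fun m => by
    rw [mono_split w m, mono_split v (m.erase w)]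
    refine h _ _ _ (Free.monomial ?_ 1) (free_erase _ _)
    by_cases a : w = v
    · simp [a]
    · simp [Finsupp.erase_ne a]

/-- Replace `w^a v^c` by `q a c`. -/
noncomputable def W2 (w v : σ) (q : ℕ → ℕ → MvPolynomial σ ℝ) :
    MvPolynomial σ ℝ →ₗ[ℝ] MvPolynomial σ ℝ :=
  (basisMonomials σ ℝ).constr ℝ fun m => q (m w) (m v) * monomial ((m.erase w).erase v) 1

theorem W2_mono (q : ℕ → ℕ → MvPolynomial σ ℝ) (m : σ →₀ ℕ) :
    W2 w v q (monomial m 1) = q (m w) (m v) * monomial ((m.erase w).erase v) 1 := by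
  simpa [W2] using (basisMonomials σ ℝ).constr_basis ℝ
    (fun m => q (m w) (m v) * monomial ((m.erase w).erase v) (1 : ℝ)) m

theorem W2_pow (h : w ≠ v) (q : ℕ → ℕ → MvPolynomial σ ℝ) (a c : ℕ) (hw : Free w g)
    (hv : Free v g) : W2 w v q (X w ^ a * (X v ^ c * g)) = q a c * g := by
  refine lin_ind (P := fun g => W2 w v q (X w ^ a * (X v ^ c * g)) = q a c * g) (by simp)
    (fun f g a b => by simp only [mul_add, map_add, a, b])
    (fun c f a => by simp only [mul_smul_comm, map_smul, a]) fun m hm => ?_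
  have a := hw m hm
  have b := hv m hm
  rw [X_pow_eq_monomial, X_pow_eq_monomial, monomial_mul, monomial_mul, one_mul, one_mul, W2_mono]
  congr 2
  · simp [a, h]
  · simp [b, h.symm]
  · refine congrArg monomial (Finsupp.ext fun t => ?_)
    by_cases c : t = v
    · rw [c, Finsupp.erase_same, b]
    · by_cases d : t = w
      · simp [d, a, h]
      · simp [c, d]

theorem act_W2 {q : ℕ → ℕ → MvPolynomial σ ℝ} (h : w ≠ v) (hw : A w) (hv : A v)
    (hq : ∀ a c t, ¬ A t → Free t (q a c)) : Act A (W2 w v q) := by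
  refine ⟨fun f g k => LinearMap.congr_fun (lin_ext2 w v (S := W2 w v q ∘ₗ .mulRight ℝ g)
    (T := .mulRight ℝ g ∘ₗ W2 w v q) fun a c p b d => ?_) f, fun f t k hf => ?_⟩
  · simp only [LinearMap.comp_apply, LinearMap.mulRight_apply, mul_assoc, W2_pow h q a c b d,
      W2_pow h q a c (b.mul (k w hw)) (d.mul (k v hv))]
  · refine lin_ind (P := fun f => Free t (W2 w v q f)) (by simpa using Free.zero t)
      (fun f g a b => by simpa using a.add b) (fun c f a => by simpa using a.smul c)
      fun m hm => ?_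
    rw [W2_mono]
    refine (hq _ _ t k).mul (Free.monomial ?_ 1)
    rw [Finsupp.erase_ne fun c : t = v => k (c ▸ hv), Finsupp.erase_ne fun c : t = w => k (c ▸ hw)]
    exact hf m hm

end Pool.Agent.Lib.MP_fcdd89_co.Tw
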