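import Pool.Agent.Lib.MP_fcdd89_co.Tw.Act

/-!
Two commuting Lax operators on the space with two marked points.
-/

set_option autoImplicit false

open Finset MvPolynomial Function

namespace Pool.Agent.Lib.MP_fcdd89_co.Tw

variable {σ : Type} [DecidableEq σ] {A : σ → Prop} {α ε : ℝ} {p : ℕ → σ} {w v : σ}
  {f g : MvPolynomial σ ℝ}

/-- The two marked variables and the power sums are distinct. -/
structure Ok (p : ℕ → σ) (w v : σ) : Prop where
  hw : Injective (update p 0 w)
  hv : Injective (update p 0 v)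
  ne : w ≠ v

theorem Ok.symm (h : Ok p w v) : Ok p v w := ⟨h.hv, h.hw, h.ne.symm⟩

theorem Ok.pv (h : Ok p w v) (k : ℕ) : p (k + 1) ≠ v := fun c =>
  k.succ_ne_zero (h.hv (by simpa using c))

theorem Ok.out (h : Ok p w v) (k : ℕ) : update p 0 w k ≠ v := by
  cases k with
  | zero => simpa using h.ne
  | succ k => simpa using h.pv k

variable (α ε p w v)

/-- The Lax operator with root `w`. -/
noncomputable def L : MvPolynomial σ ℝ →ₗ[ℝ] MvPolynomial σ ℝ := Lx α (update p 0 w)

/-- Closing the root `w`. -/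
noncomputable def Cw : MvPolynomial σ ℝ →ₗ[ℝ] MvPolynomial σ ℝ := W w fun c => X (p (c + 1))

/-- Joining the string of `v` to the string of `w`. -/
noncomputable def Q : MvPolynomial σ ℝ →ₗ[ℝ] MvPolynomial σ ℝ := W v fun c => X w ^ (c + 1)

/-- The exchange of tails. -/
noncomputable def De : MvPolynomial σ ℝ →ₗ[ℝ] MvPolynomial σ ℝ :=
  W2 w v fun a c => ∑ y ∈ range c, X w ^ y * X v ^ (a + (c - y))

/-- The operator of the root `w` without the transposition of the two marks. -/
noncomputable def Je : MvPolynomial σ ℝ →ₗ[ℝ] MvPolynomial σ ℝ := L α p w + ε • De w v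

/-- The full operator of the root `w`. -/
noncomputable def Jf : MvPolynomial σ ℝ →ₗ[ℝ] MvPolynomial σ ℝ :=
  Je α ε p w v + ε • (sw w v).toLinearMap

/-- Forgetting the mark `v`. -/
noncomputable def dd : MvPolynomial σ ℝ →ₗ[ℝ] MvPolynomial σ ℝ := Cw p v + ε • Q w v

variable {α ε p w v}

theorem Je_apply (f : MvPolynomial σ ℝ) : Je α ε p w v f = L α p w f + ε • De w v f := rfl

theorem Jf_apply (f : MvPolynomial σ ℝ) : Jf α ε p w v f = Je α ε p w v f + ε • sw w v f := rfl

theorem dd_apply (f : MvPolynomial σ ℝ) : dd ε p w v f = Cw p v f + ε • Q w v f := rfl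

section Act

variable (h : Ok p w v) (hp : ∀ k, A (p (k + 1))) (hw : A w) (hv : A v)
include hp hw

theorem upd_A (k : ℕ) : A (update p 0 w k) := by
  cases k with
  | zero => simpa using hw
  | succ k => simpa using hp k

theorem act_Cw : Act A (Cw p w) := act_W hw fun _ _ k => free_A (hp _) k

include h

theorem act_L : Act A (L α p w) := act_Lx h.hw (upd_A hp hw)

include hv

omit hp h in
theorem act_Q : Act A (Q w v) := act_W hv fun _ _ k => (free_A hw k).pow _

omit hp in
theorem act_De : Act A (De w v) :=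
  act_W2 h.ne hw hv fun _ _ _ k => Free.sum _ fun _ _ =>
    ((free_A hw k).pow _).mul ((free_A hv k).pow _)

theorem act_Je : Act A (Je α ε p w v) := (act_L h hp hw).add ((act_De h hw hv).smul ε)

theorem act_Jf : Act A (Jf α ε p w v) := (act_Je h hp hw hv).add ((act_sw hw hv).smul ε)

omit h in
theorem act_dd : Act A (dd ε p w v) := (act_Cw hp hv).add ((act_Q hw hv).smul ε)

end Act

variable (h : Ok p w v)
include h

theorem De_pow (a c : ℕ) (hw : Free w g) (hv : Free v g) : De w v (X w ^ a * (X v ^ c * g)) =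
    (∑ y ∈ range c, X w ^ y * X v ^ (a + (c - y))) * g := W2_pow h.ne _ a c hw hv

theorem L_v (f : MvPolynomial σ ℝ) : L α p w (X v * f) = X v * L α p w f :=
  (act_L (A := (· ≠ v)) h h.pv h.ne).X_mul (not_not.2 rfl) f

theorem L_vpow (c : ℕ) (f : MvPolynomial σ ℝ) : L α p w (X v ^ c * f) = X v ^ c * L α p w f := by
  induction c with
  | zero => simp
  | succ c ih => rw [pow_succ', mul_assoc, L_v h, ih, mul_assoc]

theorem free_L (hf : Free v f) : Free v (L α p w f) :=
  (act_L (A := (· ≠ v)) h h.pv h.ne).free f v (not_not.2 rfl) hf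

theorem Bt_w (f : MvPolynomial σ ℝ) : Bt (update p 0 w) (X w * f) = Cw p w f :=
  LinearMap.congr_fun (lin_ext_free w (f := Bt (update p 0 w) ∘ₗ .mulLeft ℝ (X w))
    (g := Cw p w) fun a q hq => by
      have := h
      rw [LinearMap.comp_apply, LinearMap.mulLeft_apply, ← mul_assoc, ← pow_succ', Bt, update_self,
        W_pow_mul _ _ hq, Cw, W_pow_mul _ _ hq]
      simp) f

theorem L_w (f : MvPolynomial σ ℝ) :
    L α p w (X w * f) = Cw p w f + X w * (L α p w f + (α - 1) • f) := by
  simpa only [L, update_self, Bt_w h] using Lx_X_mul α h.hw f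

theorem sw_Dr (f : MvPolynomial σ ℝ) :
    sw w v (Dr α (update p 0 w) f) = Dr α (update p 0 v) (sw w v f) := by
  induction f using MvPolynomial.induction_on with
  | C a => simp [sw]
  | add f g a b => simp only [map_add, a, b]
  | mul_X f t a =>
    simp only [map_mul, Derivation.leibniz, smul_eq_mul, map_add, a]
    congr 2
    by_cases c : ∃ k, update p 0 w k = t
    · obtain ⟨k, rfl⟩ := c
      rw [Dr_e α h.hw]
      cases k with
      | zero => simpa [dv] using (Dr_e α h.hv 0).symm
      | succ k =>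
        rw [update_of_ne k.succ_ne_zero, sw_out (h.symm.pv k) (h.pv k)]
        simpa [dv] using (Dr_e α h.hv (k + 1)).symm
    · rw [Dr_out α (not_exists.1 c), map_zero]
      by_cases d : t = v
      · rw [d, sw_right, Dr_out α h.symm.out]
      · rw [sw_out (fun a => c ⟨0, by simp [a]⟩) d, Dr_out α fun k a => ?_]
        cases k with
        | zero => exact d (by simpa using a.symm)
        | succ k => exact c ⟨k + 1, by simpa using a⟩

theorem sw_uq (a : ℕ) : sw w v (uq (update p 0 w) a) = uq (update p 0 v) a := by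
  simp [uq, sw_out (h.symm.pv _) (h.pv _)]

theorem sw_L (f : MvPolynomial σ ℝ) : sw w v (L α p w f) = L α p v (sw w v f) := by
  simp only [L, Lx_apply, map_add, sw_Dr h, update_self, sw_W, sw_uq h]

theorem sw_Cw (f : MvPolynomial σ ℝ) : sw w v (Cw p w f) = Cw p v (sw w v f) := by
  simp only [Cw, sw_W, sw_out (h.symm.pv _) (h.pv _)]

theorem sw_De (f : MvPolynomial σ ℝ) : sw w v (De w v f) = De v w (sw w v f) :=
  LinearMap.congr_fun (lin_ext2 w v (S := (sw w v).toLinearMap ∘ₗ De w v)
    (T := De v w ∘ₗ (sw w v).toLinearMap) fun a c q hw hv => by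
      simp [De_pow h a c hw hv, De_pow h.symm a c hv hw, sw_free hw hv]) f

theorem sw_Je (f : MvPolynomial σ ℝ) : sw w v (Je α ε p w v f) = Je α ε p v w (sw w v f) := by
  simp only [Je_apply, map_add, map_smul, sw_L h, sw_De h]

theorem sw_Jf (f : MvPolynomial σ ℝ) : sw w v (Jf α ε p w v f) = Jf α ε p v w (sw w v f) := by
  simp only [Jf_apply, map_add, map_smul, sw_Je h, sw_comm v w]

theorem De_free (hf : Free v f) : De w v f = 0 := by
  have : De w v ∘ₗ P0 v = 0 := lin_ext2 w v fun a c q hw hv => by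
    have b : Free v (X w ^ a * q) := ((Free.X h.ne).pow a).mul hv
    rw [LinearMap.comp_apply, mul_left_comm, P0, W_pow_mul _ _ b]
    split_ifs
    · simpa using De_pow h a 0 hw hv
    · simp
  simpa [P0_free hf] using LinearMap.congr_fun this f

theorem Je_free (hf : Free v f) : Je α ε p w v f = L α p w f := by
  simp [Je_apply, De_free h hf]

theorem De_v (f : MvPolynomial σ ℝ) : De w v (X v * f) = X v * (De w v f + sw w v f) :=
  LinearMap.congr_fun (lin_ext2 w v (S := De w v ∘ₗ .mulLeft ℝ (X v))
    (T := .mulLeft ℝ (X v) ∘ₗ (De w v + (sw w v).toLinearMap)) fun a c q hw hv => by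
      simp only [LinearMap.comp_apply, LinearMap.mulLeft_apply, LinearMap.add_apply,
        AlgHom.toLinearMap_apply, map_mul, map_pow, sw_left, sw_right, sw_free hw hv]
      rw [mul_left_comm, ← mul_assoc (X v), ← pow_succ', De_pow h _ _ hw hv, De_pow h _ _ hw hv,
        sum_range_succ, sum_congr rfl (g := fun y => X v * (X w ^ y * X v ^ (a + (c - y))))
          fun y hy => by
            rw [show c + 1 - y = c - y + 1 by have := mem_range.1 hy; omega]
            ring, ← mul_sum, Nat.add_sub_cancel_left]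
      ring) f

theorem De_w (f : MvPolynomial σ ℝ) :
    De w v (X w * f) + X v * sw w v f = sw w v (Q w v (sw w v f)) + X w * De w v f :=
  LinearMap.congr_fun (lin_ext2 w v
    (S := De w v ∘ₗ .mulLeft ℝ (X w) + .mulLeft ℝ (X v) ∘ₗ (sw w v).toLinearMap)
    (T := (sw w v).toLinearMap ∘ₗ Q w v ∘ₗ (sw w v).toLinearMap + .mulLeft ℝ (X w) ∘ₗ De w v)
    fun a c q hw hv => by
      have b : Free v (X w ^ c * q) := ((Free.X h.ne).pow c).mul hv
      simp only [LinearMap.comp_apply, LinearMap.mulLeft_apply, LinearMap.add_apply,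
        AlgHom.toLinearMap_apply, map_mul, map_pow, sw_left, sw_right, sw_free hw hv, Q,
        W_pow_mul _ _ b]
      rw [← mul_assoc (X w), ← pow_succ', De_pow h _ _ hw hv, De_pow h _ _ hw hv]
      have k := (sum_range_succ (fun y => (X w ^ y * X v ^ (a + 1 + (c - y)) : MvPolynomial σ ℝ))
        c).symm.trans (sum_range_succ' _ c)
      rw [sum_congr rfl (f := fun y => X w ^ (y + 1) * X v ^ (a + 1 + (c - (y + 1))))
        (g := fun y => X w * (X w ^ y * X v ^ (a + (c - y)))) fun y hy => by
        rw [show a + 1 + (c - (y + 1)) = a + (c - y) by have := mem_range.1 hy; omega]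
        ring, ← mul_sum, Nat.sub_self, Nat.sub_zero] at k
      linear_combination q * k) f

theorem Je_v (f : MvPolynomial σ ℝ) : Je α ε p w v (X v * f) = X v * Jf α ε p w v f := by
  simp only [Jf_apply, Je_apply, L_v h, De_v h, smul_eq_C_mul]
  ring

theorem Jf_v (f : MvPolynomial σ ℝ) :
    Jf α ε p w v (X v * f) = X v * Jf α ε p w v f + ε • (X w * sw w v f) := by
  rw [Jf_apply, Je_v h, map_mul, sw_right]

theorem Jf_w (f : MvPolynomial σ ℝ) : Jf α ε p w v (X w * f) =
    sw w v (dd ε p w v (sw w v f)) + X w * (Je α ε p w v f + (α - 1) • f) := by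
  have := De_w h f
  have k := sw_Cw h.symm (sw w v f)
  rw [sw_comm v w, sw_sw] at k
  simp only [Jf_apply, Je_apply, dd_apply, L_w h, map_add, map_mul, sw_left, k, map_smul]
  simp only [smul_eq_C_mul]
  linear_combination C ε * this

theorem dd_pow (c : ℕ) (hg : Free v g) :
    dd ε p w v (X v ^ c * g) = (X (p (c + 1)) + ε • X w ^ (c + 1)) * g := by
  have := h
  rw [dd_apply, Cw, Q, W_pow_mul _ _ hg, W_pow_mul _ _ hg, add_mul, smul_mul_assoc]

theorem dd_w (f : MvPolynomial σ ℝ) : dd ε p w v (X w * f) = X w * dd ε p w v f := by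
  have := Free.X (s := v) h.ne
  simp only [dd_apply, Cw, Q, mul_comm (X w), W_mul_free _ _ this, add_mul, smul_mul_assoc]

theorem free_dd (f : MvPolynomial σ ℝ) : Free v (dd ε p w v f) :=
  (free_W (fun _ => Free.X (h.pv _)) (.inl rfl)).add
    ((free_W (fun _ => (Free.X h.ne).pow _) (.inl rfl)).smul _)

theorem dd_sw (hf : Free v f) : dd ε p w v (sw w v f) = Cw p w f + ε • (X w * f) := by
  have : dd ε p w v ∘ₗ (sw w v).toLinearMap ∘ₗ P0 v =
      (Cw p w + ε • .mulLeft ℝ (X w)) ∘ₗ P0 v := lin_ext2 w v fun a c q hw hv => by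
    have b : Free v (X w ^ a * q) := ((Free.X h.ne).pow a).mul hv
    simp only [LinearMap.comp_apply, mul_left_comm (X w ^ a), P0, W_pow_mul _ _ b]
    split_ifs
    · simp [sw_free hw hv, dd_pow h _ hv, Cw, W_pow_mul _ _ hw, add_mul, pow_succ', mul_assoc]
    · simp
  simpa [P0_free hf] using LinearMap.congr_fun this f

theorem Cw_dd (f : MvPolynomial σ ℝ) :
    Cw p w (dd ε p w v (sw w v f)) = Cw p w (dd ε p w v f) := by
  have key : ∀ a c q, Free w q → Free v q → Cw p w (dd ε p w v (X w ^ a * (X v ^ c * q))) =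
      (X (p (a + 1)) * X (p (c + 1)) + ε • X (p (a + c + 2))) * q := fun a c q hw hv => by
    rw [mul_left_comm, dd_pow h _ (((Free.X h.ne).pow a).mul hv), add_mul, smul_mul_assoc, map_add,
      map_smul, mul_left_comm, ← mul_assoc (X w ^ (c + 1)), ← pow_add, Cw,
      W_pow_mul _ _ ((Free.X (h.symm.pv c)).mul hw), W_pow_mul _ _ hw, add_mul, smul_mul_assoc,
      mul_assoc, show c + 1 + a + 1 = a + c + 2 by omega]
  exact LinearMap.congr_fun (lin_ext2 w v (S := Cw p w ∘ₗ dd ε p w v ∘ₗ (sw w v).toLinearMap)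
    (T := Cw p w ∘ₗ dd ε p w v) fun a c q hw hv => by
      simp only [LinearMap.comp_apply, AlgHom.toLinearMap_apply, map_mul, map_pow, sw_left,
        sw_right, sw_free hw hv]
      rw [mul_left_comm, key _ _ _ hw hv, key _ _ _ hw hv, mul_comm (X (p _)), add_comm c a]) f

theorem P0_dd (f : MvPolynomial σ ℝ) : P0 w (dd ε p w v f) = Cw p w (P0 v (sw w v f)) :=
  LinearMap.congr_fun (lin_ext2 w v (S := P0 w ∘ₗ dd ε p w v)
    (T := Cw p w ∘ₗ P0 v ∘ₗ (sw w v).toLinearMap) fun a c q hw hv => by
      simp only [LinearMap.comp_apply, AlgHom.toLinearMap_apply, map_mul, map_pow, sw_left,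
        sw_right, sw_free hw hv]
      cases a with
      | zero =>
        rw [pow_zero, pow_zero, one_mul, one_mul, dd_pow h _ hv, add_mul, smul_mul_assoc, map_add,
          map_smul, pow_succ', mul_assoc, P0_X_mul, P0_free ((Free.X (h.symm.pv c)).mul hw),
          P0_free (((Free.X h.ne).pow c).mul hv), Cw, W_pow_mul _ _ hw, smul_zero, add_zero]
      | succ a => rw [pow_succ', pow_succ', mul_assoc, mul_assoc, dd_w h, P0_X_mul, P0_X_mul,
          map_zero]) f

omit h in
theorem uq_eq (a : ℕ) :
    uq (update p 0 w) (a + 1) = ∑ y ∈ range (a + 1), X w ^ y * X (p (a - y + 1)) := by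
  rw [uq, ← sum_range_reflect]
  refine sum_congr rfl fun y hy => ?_
  have := mem_range.1 hy
  rw [update_of_ne (Nat.succ_ne_zero _), update_self, mul_comm,
    show a + 1 - 1 - (a + 1 - 1 - y) = y by omega, Nat.add_sub_cancel]

theorem L_dd (hε : ε * ε = (α - 1) * ε + α) (f : MvPolynomial σ ℝ) :
    L α p w (dd ε p w v f) = dd ε p w v (Jf α ε p w v f) := by
  refine LinearMap.congr_fun (lin_ext2 w v (S := L α p w ∘ₗ dd ε p w v)
    (T := dd ε p w v ∘ₗ Jf α ε p w v) fun a c q hw hv => ?_) f
  simp only [LinearMap.comp_apply]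
  induction a with
  | succ a ih =>
    rw [pow_succ', mul_assoc, dd_w h, L_w h, ih, Jf_w h, map_add, dd_sw h (free_dd h _), Cw_dd h,
      dd_w h]
    simp only [Jf_apply, map_add, smul_eq_C_mul]
    simp only [← smul_eq_C_mul, map_smul]
    simp only [smul_eq_C_mul]
    ring
  | zero =>
    have e0 : Free (update p 0 w 0) q := by simpa using hw
    have a1 := Dr_e α h.hw (c + 1)
    have a2 := Dr_w_pow α h.hw (c + 1)
    have a3 : ∀ y k, dd ε p w v (X w ^ y * X v ^ k * q) =
        X w ^ y * (X (p (k + 1)) + ε • X w ^ (k + 1)) * q := fun y k => by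
      rw [mul_comm (X w ^ y), mul_assoc, dd_pow h _ (((Free.X h.ne).pow y).mul hv)]
      ring
    have a4 : De w v (X v ^ c * q) + X w ^ c * q =
        ∑ y ∈ range (c + 1), X w ^ y * X v ^ (c - y) * q := by
      simpa [sum_range_succ, sum_mul] using De_pow h 0 c hw hv
    have a5 : ∑ y ∈ range (c + 1), X w ^ y * (X (p (c - y + 1)) + ε • X w ^ (c - y + 1)) * q =
        uq (update p 0 w) (c + 1) * q + (ε * (c + 1 : ℕ)) • (X w ^ (c + 1) * q) := by
      rw [uq_eq, sum_mul, mul_smul, Nat.cast_smul_eq_nsmul, ← card_range (c + 1), ← sum_const,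
        card_range, smul_sum, ← sum_add_distrib]
      refine sum_congr rfl fun y hy => ?_
      rw [show c + 1 = y + (c - y + 1) by have := mem_range.1 hy; omega, pow_add]
      simp only [smul_eq_C_mul]
      ring
    rw [update_of_ne c.succ_ne_zero, dv, if_neg c.succ_ne_zero, update_self] at a1
    rw [update_self] at a2
    rw [pow_zero, one_mul, dd_pow h _ hv, Jf_apply, Je_apply, map_mul (sw w v),
      map_pow (sw w v), sw_right,
      sw_free hw hv, add_assoc, ← smul_add, a4, map_add, map_smul, map_sum, L_vpow h,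
      dd_pow h _ (free_L h hv), sum_congr rfl fun y _ => a3 y _, a5, L, Lx_mul_free α _ e0,
      map_add, map_smul, Lx_free α (g := X (p (c + 1))) (by simpa using Free.X (h.symm.pv c)), a1,
      Lx_apply, a2, update_self, W_pow]
    have : (C ε * C ε : MvPolynomial σ ℝ) = (C α - 1) * C ε + C α := by
      simpa using congrArg (C : ℝ → MvPolynomial σ ℝ) hε
    simp only [smul_eq_C_mul, map_mul, map_sub, map_one]
    linear_combination (-(C ((c + 1 : ℕ) : ℝ)) * X w ^ (c + 1) * q) * this

theorem star (f : MvPolynomial σ ℝ) :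
    Jf α ε p v w (Je α ε p w v f) = Je α ε p v w (Jf α ε p w v f) := by
  simp only [Jf_apply, map_add, map_smul, sw_comm v w, sw_Je h]

theorem Dr_comm (f : MvPolynomial σ ℝ) : Dr α (update p 0 w) (Dr α (update p 0 v) f) =
    Dr α (update p 0 v) (Dr α (update p 0 w) f) := by
  have key : ∀ {w v : σ}, Ok p w v → ∀ t,
      Dr α (update p 0 w) (Dr α (update p 0 v) (X t)) = 0 := fun {w v} h t => by
    by_cases c : ∃ k, update p 0 v k = t
    · obtain ⟨k, rfl⟩ := c
      rw [Dr_e α h.hv, dv]
      split_ifs <;> simp [Derivation.leibniz_pow, Dr_out α h.out]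
    · rw [Dr_out α (not_exists.1 c), map_zero]
  have : ⁅Dr α (update p 0 w), Dr α (update p 0 v)⁆ = 0 := derivation_ext fun t => by
    simp [Derivation.commutator_apply, key h, key h.symm]
  simpa [Derivation.commutator_apply, sub_eq_zero] using Derivation.congr_fun this f

theorem sw_full (hf : Free v f) : sw w v (De v w f + sw v w f) = De v w f + sw v w f := by
  have : (sw w v).toLinearMap ∘ₗ (De v w + (sw v w).toLinearMap) ∘ₗ P0 v =
      (De v w + (sw v w).toLinearMap) ∘ₗ P0 v := lin_ext2 w v fun a c q hw hv => by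
    have b : Free v (X w ^ a * q) := ((Free.X h.ne).pow a).mul hv
    simp only [LinearMap.comp_apply, mul_left_comm (X w ^ a), P0, W_pow_mul _ _ b]
    split_ifs
    · have k : De v w (X w ^ a * q) + X v ^ a * q =
          ∑ y ∈ range (a + 1), X v ^ y * X w ^ (a - y) * q := by
        simpa [sum_range_succ, sum_mul] using De_pow h.symm 0 a hv hw
      simp only [one_mul, LinearMap.add_apply, AlgHom.toLinearMap_apply, map_mul, map_pow,
        sw_right, sw_free hv hw, k, map_sum, sw_left, sw_free hw hv]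
      rw [← sum_range_reflect]
      refine sum_congr rfl fun y hy => ?_
      have := mem_range.1 hy
      rw [Nat.add_sub_cancel, show a - (a - y) = y by omega, mul_comm (X w ^ _)]
    · simp
  simpa only [LinearMap.comp_apply, P0_free hf, LinearMap.add_apply, AlgHom.toLinearMap_apply]
    using LinearMap.congr_fun this f

theorem JJ_v (hε : ε * ε = (α - 1) * ε + α) (f : MvPolynomial σ ℝ)
    (k : Jf α ε p v w (Je α ε p w v f) = Jf α ε p w v (Je α ε p v w f)) :
    Jf α ε p v w (Je α ε p w v (X v * f)) = Jf α ε p w v (Je α ε p v w (X v * f)) := by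
  have a : ∀ g, Jf α ε p v w (X v * g) =
      dd ε p w v g + X v * (Je α ε p v w g + (α - 1) • g) := fun g => by
    have := congrArg (sw w v) (Jf_w (α := α) (ε := ε) h (sw w v g))
    simpa only [sw_Jf h, map_mul, sw_left, sw_sw, map_add, sw_Je h, map_smul] using this
  have b : Je α ε p v w (X v * f) =
      dd ε p w v f + X v * (Je α ε p v w f + (α - 1) • f) - ε • (X w * sw w v f) := by
    rw [← a, Jf_apply, map_mul (sw v w), sw_left, sw_comm v w, add_sub_cancel_right]
  have c : Jf α ε p w v (X w * sw w v f) =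
      sw w v (dd ε p w v f) + X w * sw w v (Je α ε p v w f + (α - 1) • f) := by
    have := congrArg (sw v w) (a f)
    rw [sw_Jf h.symm] at this
    simpa only [map_mul, sw_left, sw_right, map_add, sw_comm v w] using this
  rw [Je_v h, a, b, map_sub, map_add, map_smul, c, Jf_v h, Jf_apply (dd ε p w v f),
    Je_free h (free_dd h f), L_dd h hε, ← star h, k, map_add (Jf α ε p w v), map_smul]
  simp only [smul_eq_C_mul]
  ring

theorem JJ (hε : ε * ε = (α - 1) * ε + α) (f : MvPolynomial σ ℝ) :
    Jf α ε p v w (Je α ε p w v f) = Jf α ε p w v (Je α ε p v w f) := by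
  refine LinearMap.congr_fun (lin_ext2 w v (S := Jf α ε p v w ∘ₗ Je α ε p w v)
    (T := Jf α ε p w v ∘ₗ Je α ε p v w) fun a c q hw hv => ?_) f
  simp only [LinearMap.comp_apply]
  induction a with
  | succ a ih => rw [pow_succ', mul_assoc, ← JJ_v h.symm hε _ ih.symm]
  | zero =>
    rw [pow_zero, one_mul]
    induction c with
    | succ c ih => rw [pow_succ', mul_assoc, JJ_v h hε _ ih]
    | zero =>
      have a := free_L (α := α) h hv
      have b := free_L (α := α) h.symm hw
      have c := sw_L (α := α) h q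
      have d := sw_full h a
      have e : L α p v (L α p w q) = L α p w (L α p v q) := by
        simp only [L] at a b ⊢
        rw [Lx_free α (e := update p 0 w) (by simpa using hw)] at a ⊢
        rw [Lx_free α (e := update p 0 w) (by simpa using b)]
        rw [Lx_free α (by simpa using a), Lx_free α (by simpa using hv), Dr_comm h]
      rw [sw_free hw hv] at c
      rw [map_add, sw_comm w v, sw_De h.symm, sw_comm v w, c] at d
      rw [pow_zero, one_mul, Je_free h hv, Je_free h.symm hw, Jf_apply, Jf_apply, Je_apply,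
        Je_apply, e, add_assoc, add_assoc, ← smul_add, ← smul_add, sw_comm v w, c, d]

end Pool.Agent.Lib.MP_fcdd89_co.Tw
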