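import Pool.Agent.Lib.MP_fcdd89_co.Tw.Ser

/-!
Factorisation of the kernel with two marked points.
-/

set_option autoImplicit false

open Finset MvPolynomial Function

namespace Pool.Agent.Lib.MP_fcdd89_co.Tw

variable {σ : Type} [DecidableEq σ] {A B : σ → Prop} {α ε : ℝ} {p q : ℕ → σ} {w v w' v' u : σ}

theorem dd_mul_free (f : MvPolynomial σ ℝ) {g : MvPolynomial σ ℝ} (hg : Free v g) :
    dd ε p w v (f * g) = dd ε p w v f * g := by
  simp only [dd_apply, Cw, Q, W_mul_free _ _ hg, add_mul, smul_mul_assoc]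

theorem Jf_mul_free (h : Ok p w v) (f : MvPolynomial σ ℝ) {g : MvPolynomial σ ℝ} (hw : Free w g)
    (hv : Free v g) : Jf α ε p w v (f * g) = Jf α ε p w v f * g + f * L α p w g := by
  have := (act_De (A := fun t => t = w ∨ t = v) h (.inl rfl) (.inr rfl)).mul f g
    fun t k => by rcases k with rfl | rfl <;> assumption
  rw [Jf_apply, Jf_apply, Je_apply, Je_apply, this, map_mul (sw w v), sw_free hw hv, L,
    Lx_mul_free α f (by simpa using hw)]
  simp only [smul_eq_C_mul]
  ring

variable (α ε p w v w' v' u) in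
/-- The part of the connected kernel in which both marks lie in one component. -/
noncomputable def rr (F k g : PowerSeries (MvPolynomial σ ℝ)) : PowerSeries (MvPolynomial σ ℝ) :=
  .mk (rec2 (X v * X v') (.mulLeft ℝ (X u) + Jf α ε p v w) (.map (ss w v w' v').toRingHom g)
    (cw (ε • (De v w + (sw v w).toLinearMap)) (k * .map (ss w v w' v').toRingHom F) +
      .map (ss w v w' v').toRingHom F * cw (α • (Dr 1 (update p 0 v)).toLinearMap) k))

theorem cw_add (S T : MvPolynomial σ ℝ →ₗ[ℝ] MvPolynomial σ ℝ)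
    (f : PowerSeries (MvPolynomial σ ℝ)) : cw (S + T) f = cw S f + cw T f := by
  ext1
  simp

theorem cw_left (a : MvPolynomial σ ℝ) (f : PowerSeries (MvPolynomial σ ℝ)) :
    cw (.mulLeft ℝ a) f = .C a * f := by
  ext1
  simp

variable (t : Two A B p q w v w' v' u)
include t

theorem Two.series (hε : ε * ε = (α - 1) * ε + α) {ω F k g : PowerSeries (MvPolynomial σ ℝ)}
    (ow : ∀ n, Free w (PowerSeries.coeff n ω)) (ov : ∀ n, Free v (PowerSeries.coeff n ω))
    (ow' : ∀ n, Free w' (PowerSeries.coeff n ω)) (ov' : ∀ n, Free v' (PowerSeries.coeff n ω))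
    (fv : ∀ n, Free v (PowerSeries.coeff n F)) (fv' : ∀ n, Free v' (PowerSeries.coeff n F))
    (kv : ∀ n, Free v (PowerSeries.coeff n k))
    (hk : k = cw (L α p w) F + .C (X u) * F + F * g) (hF : F = 1 + .X * (.C (X w * X w') * k))
    (hω : cw (L α p w) ω = g * ω) (hL : cw (L α p w) (F * ω) = cw (L α q w') (F * ω))
    {D : PowerSeries (MvPolynomial σ ℝ)} (hD : D = cw (dd ε p w v) (cw (dd ε q w' v')
      (F * .map (ss w v w' v').toRingHom F + .X * (.C (X v * X v') *
        .map (ss w v w' v').toRingHom (rr α ε p w v w' v' u F k g)))) * ω) (n : ℕ) :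
    L α p w (PowerSeries.coeff n D) = L α q w' (PowerSeries.coeff n D) ∧
      P0 w (PowerSeries.coeff n D) = Cw p w (Cw q w' (PowerSeries.coeff n (F * ω)) +
        ε • (X w' * PowerSeries.coeff n (F * ω))) := by
  have hr := rec2_eq (T := .mulLeft ℝ (X u) + Jf α ε p v w) (X v * X v')
    (.map (ss w v w' v').toRingHom g)
    (cw (ε • (De v w + (sw v w).toLinearMap)) (k * .map (ss w v w' v').toRingHom F) +
      .map (ss w v w' v').toRingHom F * cw (α • (Dr 1 (update p 0 v)).toLinearMap) k)
  rw [← rr, cw_add, cw_left] at hr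
  generalize rr α ε p w v w' v' u F k g = r at hr hD
  have so : ∀ n, ss w v w' v' (PowerSeries.coeff n ω) = PowerSeries.coeff n ω := fun n => by
    rw [ss_apply, sw_free (ow' n) (ov' n), sw_free (ow n) (ov n)]
  have sS : ∀ f n, PowerSeries.coeff n (PowerSeries.map (ss w v w' v').toRingHom f) =
      ss w v w' v' (PowerSeries.coeff n f) := fun f n => PowerSeries.coeff_map _ _ _
  have sC : ∀ a, PowerSeries.map (ss w v w' v').toRingHom (.C a) = .C (ss w v w' v' a) :=
    fun a => PowerSeries.map_C _ _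
  have sX : PowerSeries.map (ss w v w' v').toRingHom (.X : PowerSeries _) = .X :=
    PowerSeries.map_X _
  generalize PowerSeries.map (ss w v w' v').toRingHom = S at *
  have s1 : S ω = ω := PowerSeries.ext fun n => by rw [sS, so]
  have s2 : ∀ f, S (cw (L α p w) f) = cw (L α p v) (S f) := fun f => PowerSeries.ext fun n => by
    rw [sS, coeff_cw, coeff_cw, sS, t.ss_L]
  have s3 : ∀ f, S (S f) = f := fun f => PowerSeries.ext fun n => by rw [sS, sS, t.ss_ss]
  have l1 : cw (L α p v) ω = S g * ω := by rw [← s1, ← s2, hω, map_mul, s1]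
  have l2 : cw (L α p w) (F * ω) + .C (X u) * (F * ω) = k * ω := by
    rw [cw_mul (T := L α p w) (S := L α p w) (U := L α p w) (g := ω)
      fun a n => Lx_mul_free α a (by simpa using ow n), hω, hk]
    ring
  have l3 : S k = cw (L α p v) (S F) + .C (X u) * S F + S F * S g := by
    rw [hk, map_add, map_add, s2, map_mul, map_mul, sC, t.ss_u]
  have l4 : S F = 1 + .X * (.C (X v * X v') * S k) := by
    conv_lhs => rw [hF]
    rw [map_add, map_one, map_mul, map_mul, sX, sC, map_mul, t.ss_w, t.ss_w']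
  have l5 : cw (Jf α ε p v w) (k * S F) = cw (L α p v) (S F) * k +
      S F * cw (α • (Dr 1 (update p 0 v)).toLinearMap) k +
        cw (ε • (De v w + (sw v w).toLinearMap)) (k * S F) := by
    rw [← cw_mul (T := L α p v) fun a n => by
      have e : Free (update p 0 v 0) (PowerSeries.coeff n k) := by simpa using kv n
      rw [L, Lx_mul_free α a e, Lx_free α e, Dr_scale t.h.hv α e]
      rfl, mul_comm (S F), ← cw_add, Jf, Je, smul_add, add_assoc]
  have l6 : ∀ f, cw (Jf α ε p v w) (f * ω) = cw (Jf α ε p v w) f * ω + f * (S g * ω) := fun f => by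
    rw [cw_mul fun a n => Jf_mul_free t.h.symm a (ov n) (ow n), l1]
  have m1 : (k * S F + r) * ω = k * ω + .X * (.C (X v * X v') *
      (.C (X u) * ((k * S F + r) * ω) + cw (Jf α ε p v w) ((k * S F + r) * ω))) := by
    rw [l6, map_add, l5]
    linear_combination ω * hr + k * ω * l4 + (.X * .C (X v * X v') * k * ω) * l3
  have m2 : (F * S F + .X * (.C (X v * X v') * S r)) * ω =
      F * ω + .X * (.C (X v * X v') * S ((k * S F + r) * ω)) := by
    rw [map_mul S, map_add S, map_mul S, s3, s1]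
    linear_combination F * ω * l4
  have m3 : F * ω = ω + .X * (.C (X w * X w') * (k * ω)) := by linear_combination ω * hF
  have c : ∀ n, PowerSeries.coeff n (k * ω) = L α p w (PowerSeries.coeff n (F * ω)) +
      X u * PowerSeries.coeff n (F * ω) := fun n => by
    rw [← l2, map_add, coeff_cw, PowerSeries.coeff_C_mul]
  have fr : ∀ {s : σ}, (∀ n, Free s (PowerSeries.coeff n F)) →
      (∀ n, Free s (PowerSeries.coeff n ω)) → ∀ n, Free s (PowerSeries.coeff n (F * ω)) :=
    fun a b n => by
      rw [PowerSeries.coeff_mul]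
      exact Free.sum _ fun i _ => (a _).mul (b _)
  rw [hD, ← cw_mul' (T := dd ε p w v) (g := ω) fun a n => dd_mul_free a (ov n),
    ← cw_mul' (T := dd ε q w' v') (g := ω) fun a n => dd_mul_free a (ov' n), coeff_cw, coeff_cw]
  have := t.main hε (Ω := fun n => PowerSeries.coeff (n + 1) ω)
    (Φ := fun n => PowerSeries.coeff n (F * ω))
    (M := fun n => PowerSeries.coeff n ((k * S F + r) * ω))
    (N := fun n => PowerSeries.coeff n ((F * S F + .X * (.C (X v * X v') * S r)) * ω))
    (n₀ := n) ?_ (fun n _ => so (n + 1)) (fun n _ => ?_) (fun n _ => ?_) (fun n _ => fr fv ov n)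
    (fun n _ => fr fv' ov' n) ?_ (fun n _ => ?_) ?_ (fun n _ => ?_) le_rfl
  · exact this
  · rw [m3, map_add, PowerSeries.coeff_zero_X_mul, add_zero, so]
  · conv_lhs => rw [m3, map_add, PowerSeries.coeff_succ_X_mul, PowerSeries.coeff_C_mul, c,
      mul_assoc]
  · rw [← coeff_cw, hL, coeff_cw]
  · rw [m1, map_add, PowerSeries.coeff_zero_X_mul, add_zero, c]
  · conv_lhs => rw [m1, map_add, PowerSeries.coeff_succ_X_mul, PowerSeries.coeff_C_mul, c,
      map_add, PowerSeries.coeff_C_mul, coeff_cw, mul_assoc]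
  · rw [m2, map_add, PowerSeries.coeff_zero_X_mul, add_zero]
  · conv_lhs => rw [m2, map_add, PowerSeries.coeff_succ_X_mul, PowerSeries.coeff_C_mul, sS,
      mul_assoc]

theorem Two.dd_ss {f : MvPolynomial σ ℝ} (hv : Free v f) (hv' : Free v' f) :
    dd ε p w v (dd ε q w' v' (ss w v w' v' f)) = Cw p w (Cw q w' f) +
      (ε • (Cw p w (X w' * f) + X w * Cw q w' f) + ε • ε • (X w * (X w' * f))) := by
  have g := (act_sw t.hw t.hv).comm (act_dd (ε := ε) t.hq t.hw' t.hv') t.dis (sw w' v' f)
  have i : ¬ B v := t.dis _ t.hv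
  simp only [AlgHom.toLinearMap_apply] at g
  rw [ss_apply, ← g, dd_sw t.k hv', dd_sw t.h (((act_Cw t.hq t.hw').free f v i hv).add
    (((free_A t.hw' i).mul hv).smul ε)), map_add, map_smul]
  simp only [smul_eq_C_mul]
  ring

theorem Two.conn {F k g : ℝ → PowerSeries (MvPolynomial σ ℝ)}
    (pF : ∀ n, Pos fun α => PowerSeries.coeff n (F α))
    (pk : ∀ n, Pos fun α => PowerSeries.coeff n (k α))
    (pg : ∀ n, Pos fun α => PowerSeries.coeff n (g α))
    (fv : ∀ α n, Free v (PowerSeries.coeff n (F α)))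
    (fv' : ∀ α n, Free v' (PowerSeries.coeff n (F α))) :
    ∃ E : ℝ → ℝ → ℕ → MvPolynomial σ ℝ, (∀ n, PE fun α ε => E α ε n) ∧ ∀ α ε : ℝ,
      cw (dd ε p w v) (cw (dd ε q w' v') (F α * .map (ss w v w' v').toRingHom (F α) +
        .X * (.C (X v * X v') * .map (ss w v w' v').toRingHom
          (rr α ε p w v w' v' u (F α) (k α) (g α))))) =
      F α * cw (Cw p w ∘ₗ Cw q w') (F α) + .mk (E α ε) := by
  have pS : ∀ a, Pos a → Pos fun α => ss w v w' v' (a α) :=
    fun a h => pos_rename _ (pos_rename _ h)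
  have pC : ∀ {p : ℕ → σ} {w : σ} {a : ℝ → MvPolynomial σ ℝ}, Pos a → Pos fun α => Cw p w (a α) :=
    fun h => h.W _ fun _ => Pos.X _
  have pM : ∀ {a b : ℝ → PowerSeries (MvPolynomial σ ℝ)},
      (∀ n, Pos fun α => PowerSeries.coeff n (a α)) →
      (∀ n, Pos fun α => PowerSeries.coeff n (b α)) →
      ∀ n, Pos fun α => PowerSeries.coeff n (a α * b α) := fun a b n =>
    (Pos.sum _ fun i _ => (a _).mul (b _)).of_eq fun α => PowerSeries.coeff_mul _ _ _
  have pT : ∀ {a : ℝ → PowerSeries (MvPolynomial σ ℝ)},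
      (∀ n, Pos fun α => PowerSeries.coeff n (a α)) → ∀ n, Pos fun α => PowerSeries.coeff n
        (PowerSeries.map (ss w v w' v').toRingHom (a α)) := fun a n =>
    (pS _ (a n)).of_eq fun α => PowerSeries.coeff_map _ _ _
  have pr : ∀ n, PE fun α ε => PowerSeries.coeff n (rr α ε p w v w' v' u (F α) (k α) (g α)) :=
    fun n => (PE.rec2 (T := fun α ε => .mulLeft ℝ (X u) + Jf α ε p v w) ((Pos.X v).mul (Pos.X v'))
      (fun f h => (PE.mul (Pos.X u) h).add (h.Jf t.h.hv)) (pT pg) (fun n =>
        ((PE.ep ((pos_De (w := v) (v := w) (pM pk (pT pF) n)).add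
          (pos_rename (Equiv.swap v w) (pM pk (pT pF) n)))).add (PE.al
          (pM (b := fun α => cw (Dr 1 (update p 0 v)).toLinearMap (k α)) (pT pF) (fun n =>
            (pos_Dr t.h.hv (pk n)).of_eq fun α => coeff_cw _ _) n))).of_eq fun α ε => by
          rw [map_add, coeff_cw]
          congr 1
          simp only [PowerSeries.coeff_mul, coeff_cw, smul_sum, LinearMap.smul_apply,
            mul_smul_comm]) n).of_eq fun α ε => PowerSeries.coeff_mk _ _
  refine ⟨fun α ε n => ∑ i ∈ antidiagonal n, PowerSeries.coeff i.1 (F α) *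
      (ε • (Cw p w (X w' * PowerSeries.coeff i.2 (F α)) +
        X w * Cw q w' (PowerSeries.coeff i.2 (F α))) +
        ε • ε • (X w * (X w' * PowerSeries.coeff i.2 (F α)))) +
      dd ε p w v (dd ε q w' v' (PowerSeries.coeff n (.X * (.C (X v * X v') *
        .map (ss w v w' v').toRingHom (rr α ε p w v w' v' u (F α) (k α) (g α)))))),
    fun n => PE.add (PE.sum _ fun i _ => PE.mul (pF _) (PE.add (PE.ep
      ((pC ((Pos.X _).mul (pF _))).add ((Pos.X _).mul (pC (pF _)))))
      (PE.ep ((Pos.X _).mul ((Pos.X _).mul (pF _)))).eps)) (PE.dd (PE.dd ?_)), fun α ε => ?_⟩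
  · cases n with
    | zero => exact PE.zero.of_eq fun α ε => PowerSeries.coeff_zero_X_mul _
    | succ n =>
      exact (PE.mul ((Pos.X v).mul (Pos.X v')) ((pr n).lin
        (fun _ => (ss w v w' v').toLinearMap) pS)).of_eq fun α ε => by
          rw [PowerSeries.coeff_succ_X_mul, PowerSeries.coeff_C_mul, PowerSeries.coeff_map]
          rfl
  · ext1 n
    rw [coeff_cw, coeff_cw, map_add, map_add, map_add, map_add, PowerSeries.coeff_mk, ← add_assoc,
      PowerSeries.coeff_mul n (F α), PowerSeries.coeff_mul n (F α), ← sum_add_distrib, map_sum,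
      map_sum]
    congr 1
    refine sum_congr rfl fun i _ => ?_
    rw [mul_comm, dd_mul_free _ (fv' α _), dd_mul_free _ (fv α _), PowerSeries.coeff_map,
      coeff_cw, ← mul_add, mul_comm]
    exact congrArg _ (t.dd_ss (fv α _) (fv' α _))

end Pool.Agent.Lib.MP_fcdd89_co.Tw
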