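import Pool.Agent.Lib.MP_fcdd89_co.Tw.Fac
import Pool.Agent.Lib.MP_fcdd89_co.Mp.G

/-!
The kernel with two marked points is the Jack kernel with a second marked point in the third
alphabet.
-/

set_option autoImplicit false

open Finset MvPolynomial Function

namespace Pool.Agent.Lib.MP_fcdd89_co.Tw

variable {n N : ℕ} {α ε : ℝ} {x y z : Fin 3} {ψ J : ℕ → Ix → R}
  {θ : ∀ n : ℕ, n.Partition → n.Partition → ℝ}

theorem uniq (hxy : y ≠ x) (hα : 0 < α) {f : Tri} (h0 : P0 (x, 0) f = 0)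
    (he : Lx α (Prod.mk x) f = Lx α (Prod.mk y) f) : f = 0 := by
  classical
  have key : IT 0 fun β => if β = α then f else 0 := by
    refine it_step hxy (Q := fun _ => 0)
      ⟨f.support, fun β _ => ?_⟩ (IT.zero.congr fun β _ => ?_) IT.zero fun β _ => ?_
    · dsimp only
      split_ifs <;> simp
    · split_ifs <;> simp [h0]
    · split_ifs with h
      · rw [h, he, sub_self]
      · simp
  ext m
  obtain ⟨P, hP⟩ := Mp.IW_poly (key m)
  have : P = 0 := Polynomial.eq_zero_of_infinite_isRoot _ ((Set.Ioi_infinite α).mono fun β hβ => by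
    have b : α < β := hβ
    have := hP β (hα.trans b)
    exact this.symm.trans (by simp [b.ne']))
  simpa [this] using hP α hα

theorem ok_mk (hxz : z ≠ x) (j : ℕ) : Ok (Prod.mk x) (x, 0) (z, j) :=
  ⟨by rw [update_eq_self 0 (Prod.mk x)]; exact mk_inj x, fun a b h => by
    rcases a with _ | a <;> rcases b with _ | b <;> simp_all [hxz.symm], by simp [hxz.symm]⟩

theorem two_mk (hxy : y ≠ x) (hxz : z ≠ x) (hyz : z ≠ y) :
    Two (fun s => s.1 = x ∨ s = (z, 1)) (fun s => s.1 = y ∨ s = (z, 2)) (Prod.mk x) (Prod.mk y)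
      (x, 0) (z, 1) (y, 0) (z, 2) (z, 0) :=
  ⟨ok_mk hxz 1, ok_mk hyz 2, fun _ => .inl rfl, .inl rfl, .inr rfl, fun _ => .inl rfl, .inl rfl,
    .inr rfl, fun s a b => by rcases a with a | rfl <;> rcases b with b | b <;> simp_all,
    by simp [hxz], by simp [hyz]⟩

theorem L_mk : L α (Prod.mk x) (x, 0) = Lx α (Prod.mk x) := by
  rw [L, update_eq_self 0 (Prod.mk x)]

theorem Cw_mk (hxz : z ≠ x) : Cw (Prod.mk x) (x, 0) = Cl x := LinearMap.ext fun f => by
  rw [← Bt_w (ok_mk hxz 0), update_eq_self 0 (Prod.mk x), Cl_apply]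

theorem act_sp : Act (fun s : Fin 3 × ℕ => s.1 = z) (sp z).toLinearMap :=
  act_rename (fun _ h => if_neg h) fun _ h => by rw [if_pos h]

theorem act_Bmk : Act (fun s : Fin 3 × ℕ => s.1 = x) (Bt (Prod.mk x)) := act_Bt fun _ => rfl

theorem act_Cl : Act (fun s : Fin 3 × ℕ => s.1 = x) (Cl x) :=
  act_Bmk.comp (act_X (w := (x, 0)) rfl)

theorem act_Pmk : Act (fun s : Fin 3 × ℕ => s.1 = x) (P0 (x, 0)) := act_P0 rfl

theorem act_Smk : Act (fun s : Fin 3 × ℕ => s.1 = x) (Sh (x, 0)) := act_Sh rfl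

theorem act_dmk (k : ℕ) : Act (fun s : Fin 3 × ℕ => s.1 = x)
    (pderiv (x, k) : Derivation ℝ Tri Tri).toLinearMap := act_pderiv rfl

theorem act_Lmk : Act (fun s : Fin 3 × ℕ => s.1 = x) (Lx α (Prod.mk x)) :=
  act_Lx (mk_inj x) fun _ => rfl

theorem dis (h : z ≠ x) (s : Fin 3 × ℕ) (a : s.1 = x) : ¬ s.1 = z := fun b => h (b.symm.trans a)

theorem free_sp (j : ℕ) (f : Tri) : Free (z, j + 1) (sp z f) :=
  free_rename fun s c => by
    split_ifs at c with h
    · simp at c
    · exact absurd (congrArg Prod.fst c) h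

theorem free_FF (hxz : z ≠ x) (hyz : z ≠ y) (j n : ℕ) : Free (z, j + 1) (FF α x y z n) := by
  induction n using Nat.strong_induction_on with
  | _ n ih =>
    cases n with
    | zero =>
      rw [FF]
      exact Free.one _
    | succ n =>
      have a := ih n n.lt_succ_self
      rw [FF_succ]
      refine (Free.X (by simp [hxz.symm])).mul ((Free.X (by simp [hyz.symm])).mul
        (((act_Lmk.free _ _ hxz a).add ((Free.X (by simp)).mul a)).add (Free.sum _ fun p hp =>
          (ih _ (Nat.lt_succ_of_le (fst_le' hp))).mul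
            (act_Bmk.free _ _ hyz (ih _ (Nat.lt_succ_of_le (snd_le' hp)))))))

theorem sp_T3 (s : Sys α N ψ J) (hxz : z ≠ x) (hyz : z ≠ y) (hn : n ≤ N) :
    sp z (P0 (z, 0) (T3 α x y z n (ψ n))) = Phi α x y z n (ψ n) (J n) := by
  rw [T3, map_sum, map_sum]
  refine sum_congr rfl fun m hm => ?_
  rw [map_smul, map_smul, mul_comm, P0_emb (mk_inj z) _
    ((free_em hxz.symm 0 _).mul (free_em hyz.symm 0 _)), (s.lev n hn).p0 m (mem_Idx.1 hm),
    map_mul, map_mul, sp_self, sp_em hxz.symm, sp_em hyz.symm, mul_comm]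

theorem sp_Ph (s : Sys α N ψ J) (hα : 0 < α) (hxy : y ≠ x) (hxz : z ≠ x) (hyz : z ≠ y)
    (hn : n ≤ N) : sp z (P0 (z, 0) (Ph α x y z ψ J n)) = FF α x y z n :=
  conv_cancel (F := fun n => sp z (phi α x y z n (J n))) (by rw [s.phi_zero, map_one])
    (A := fun n => sp z (P0 (z, 0) (Ph α x y z ψ J n))) (N := N) (fun k hk => by
      have := s.Phi_eq hα hxy hxz hyz hk
      rw [← sp_T3 s hxz hyz hk, s.T3_conv, map_sum, map_sum] at this
      simp only [← sp_phi hxz hyz] at this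
      rw [← this]
      exact sum_congr rfl fun p hp => by
        rw [P0_mul_free _ (s.free ((snd_le' hp).trans hk) z), map_mul]) n hn

variable (α ε z) in
/-- A second marked point in the alphabet `z`, forgotten on the other two sides. -/
noncomputable def ZT : Tri →ₗ[ℝ] Tri :=
  α • ((sp z).toLinearMap ∘ₗ (pderiv (z, 1) : Derivation ℝ Tri Tri).toLinearMap ∘ₗ P0 (z, 0)) +
    ε • ((sp z).toLinearMap ∘ₗ P0 (z, 0) ∘ₗ Sh (z, 0))

theorem ZT_apply (f : Tri) : ZT α ε z f =
    α • sp z (pderiv (z, 1) (P0 (z, 0) f)) + ε • sp z (P0 (z, 0) (Sh (z, 0) f)) := rfl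

theorem act_ZT : Act (fun s : Fin 3 × ℕ => s.1 = z) (ZT α ε z) :=
  ((act_sp.comp ((act_dmk 1).comp act_Pmk)).smul α).add
    ((act_sp.comp (act_Pmk.comp act_Smk)).smul ε)

variable (α x y z) in
/-- The connected series with two marked points in which the third cycle is closed. -/
noncomputable def k1 : PowerSeries Tri :=
  cw (Lx α (Prod.mk x)) (.mk (FF α x y z)) + .C (X (z, 0)) * .mk (FF α x y z) +
    .mk (FF α x y z) * cw (Bt (Prod.mk y)) (.mk (FF α x y z))

theorem coeff_k1 (n : ℕ) : PowerSeries.coeff n (k1 α x y z) =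
    Lx α (Prod.mk x) (FF α x y z n) + X (z, 0) * FF α x y z n +
      ∑ p ∈ antidiagonal n, FF α x y z p.1 * Bt (Prod.mk y) (FF α x y z p.2) := by
  rw [k1, map_add, map_add, PowerSeries.coeff_C_mul, PowerSeries.coeff_mul]
  simp only [coeff_cw, PowerSeries.coeff_mk]

theorem FF_k1 (n : ℕ) :
    FF α x y z (n + 1) = X (x, 0) * X (y, 0) * PowerSeries.coeff n (k1 α x y z) := by
  rw [FF_succ, coeff_k1, mul_assoc]

theorem pos_k1 (n : ℕ) : Pos fun α => PowerSeries.coeff n (k1 α x y z) :=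
  ((((pos_FF n).Lx (mk_inj x)).add ((Pos.X _).mul (pos_FF n))).add
    (Pos.sum _ fun p _ => (pos_FF _).mul (pos_FF _).Bt)).of_eq fun α => coeff_k1 n

theorem two_pos (hxy : y ≠ x) (hxz : z ≠ x) (hyz : z ≠ y) (n : ℕ) :
    ∃ A B : ℝ → Tri, Pos A ∧ Pos B ∧ ∀ α : ℝ, 0 < α → ∀ N ψ J, Sys α N ψ J → n ≤ N →
      sp z (pderiv (z, 1) (P0 (z, 0) (Ph α x y z ψ J n))) = A α ∧
        sp z (P0 (z, 0) (Sh (z, 0) (Ph α x y z ψ J n))) = B α := by
  have t := two_mk hxy hxz hyz
  have fF : ∀ j α n, Free (z, j + 1) (PowerSeries.coeff n (.mk (FF α x y z))) := fun j α n => by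
    rw [PowerSeries.coeff_mk]
    exact free_FF hxz hyz j n
  obtain ⟨E, pE, hE⟩ := t.conn (F := fun α => .mk (FF α x y z)) (k := fun α => k1 α x y z)
    (g := fun α => cw (Bt (Prod.mk y)) (.mk (FF α x y z)))
    (fun n => (pos_FF n).of_eq fun α => PowerSeries.coeff_mk _ _) pos_k1
    (fun n => (pos_FF n).Bt.of_eq fun α => by rw [coeff_cw, PowerSeries.coeff_mk]) (fF 0) (fF 1)
  have pE' : PE fun α ε => shf (E α ε) n := by
    cases n with
    | zero => exact PE.zero
    | succ n => exact pE n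
  obtain ⟨A, B, a, b, h⟩ := pE'.split
  refine ⟨A, B, a, b, fun α hα N ψ J s hn => h α hα _ _ fun ε hε => ?_⟩
  obtain ⟨θ, hθ⟩ := exists_jack hα
  obtain ⟨ω, hω⟩ : ∃ ω : PowerSeries Tri, ∀ {N ψ J}, Sys α N ψ J → ∀ k ≤ N,
      PowerSeries.coeff k ω = sp z (phi α x y z k (J k)) :=
    ⟨cw (sp z).toLinearMap (series α θ), fun s k hk => by
      rw [coeff_cw, s.series_phi hα hθ hxy hxz hyz hk]
      rfl⟩
  have hΦ : ∀ {N ψ J}, Sys α N ψ J → ∀ k ≤ N,
      PowerSeries.coeff k (.mk (FF α x y z) * ω) = Phi α x y z k (ψ k) (J k) := fun s k hk => by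
    rw [s.Phi_eq hα hxy hxz hyz hk, PowerSeries.coeff_mul]
    exact sum_congr rfl fun p hp => by
      rw [PowerSeries.coeff_mk, hω s _ ((snd_le' hp).trans hk), sp_phi hxz hyz]
  have o1 : ∀ {a : Fin 3}, z ≠ a → ∀ k, Free (a, 0) (PowerSeries.coeff k ω) := fun ha k => by
    obtain ⟨ψ, J, s⟩ := exists_sys hα k
    rw [hω s k le_rfl, sp_phi hxz hyz]
    exact (s.lev k le_rfl).tau_free ha
  have o2 : ∀ j k, Free (z, j + 1) (PowerSeries.coeff k ω) := fun j k => by
    obtain ⟨ψ, J, s⟩ := exists_sys hα k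
    rw [hω s k le_rfl]
    exact free_sp j _
  have key := t.series hε (k := k1 α x y z) (o1 hxz) (o2 0) (o1 hyz) (o2 1) (fF 0 α) (fF 1 α)
    (fun k => by
      have := free_FF (α := α) hxz hyz 0 (k + 1)
      rw [FF_k1, mul_assoc] at this
      have c := act_Smk.free _ _ hxz this
      rw [Sh_X_mul] at c
      have d := act_Smk.free _ _ hyz c
      rwa [Sh_X_mul] at d)
    (by rw [L_mk, k1]) (PowerSeries.ext fun k => by
      cases k with
      | zero => simp [FF]
      | succ k =>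
        rw [PowerSeries.coeff_mk, FF_k1, map_add, PowerSeries.coeff_succ_X_mul,
          PowerSeries.coeff_C_mul, PowerSeries.coeff_one, if_neg k.succ_ne_zero, zero_add])
    (PowerSeries.ext fun k => by
      obtain ⟨ψ, J, s⟩ := exists_sys hα k
      rw [← cw_mul' fun a n => Bt_mul_free a (o1 hyz n), coeff_cw, coeff_cw, hΦ s k le_rfl,
        hω s k le_rfl, sp_phi hxz hyz, ← s.P0_Phi hα le_rfl hxy hxz hyz, L_mk,
        (s.lev k le_rfl).Lx_P0 hxy hxz hyz])
    (PowerSeries.ext fun k => by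
      obtain ⟨ψ, J, s⟩ := exists_sys hα k
      have c := (act_sp (z := z)).comp act_Pmk
      have d := (act_Lmk (α := α)).comm c (dis hxz) (T3 α x y z k (ψ k))
      have e := (act_Lmk (α := α)).comm c (dis hyz) (T3 α x y z k (ψ k))
      rw [(s.lev k le_rfl).Lx_eq hxy hxz hyz, ← e] at d
      rw [coeff_cw, coeff_cw, hΦ s k le_rfl, L_mk, L_mk, ← sp_T3 s hxz hyz le_rfl]
      exact d) rfl
  rw [hE, L_mk, L_mk, Cw_mk hxz, Cw_mk hyz] at key
  have main : ∀ k, k + 1 ≤ N → ZT α ε z (T3 α x y z (k + 1) (ψ (k + 1))) =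
      PowerSeries.coeff k ((.mk (FF α x y z) * cw (Cl x ∘ₗ Cl y) (.mk (FF α x y z)) +
        .mk (E α ε)) * ω) := fun k hk => by
    refine sub_eq_zero.1 (uniq hxy hα ?_ ?_)
    · have c := (act_sp (z := z)).comp act_Pmk
      have d := c.comm act_Cl (dis hxz.symm) (T3 α x y z k (ψ k))
      have e := c.X_mul (t := (y, 0)) hyz.symm (Cl x (T3 α x y z k (ψ k)))
      simp only [LinearMap.comp_apply, AlgHom.toLinearMap_apply] at d e
      rw [map_sub, (key k).2, act_Pmk.comm act_ZT (dis hxz),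
        (s.link k hk).P0_T3 hα (s.lev k (by omega)) (s.lev _ hk) hxy hxz, ZT_apply,
        mul_left_comm, map_add (P0 _), map_add (Sh _), P0_X_mul, Sh_X_mul, P0_free (s.free hk z),
        Sh_free (s.free hk z), add_zero, zero_add,
        (s.link k hk).sp_deriv hα (s.lev k (by omega)) (s.lev _ hk) hxy hxz hyz, e, d,
        sp_T3 s hxz hyz (by omega), hΦ s k (by omega), map_add, map_smul, act_Cl.X_mul hxy]
      exact sub_self _
    · rw [map_sub, map_sub, (key k).1, act_Lmk.comm act_ZT (dis hxz), act_Lmk.comm act_ZT (dis hyz),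
        (s.lev _ hk).Lx_eq hxy hxz hyz]
  refine conv_cancel (F := fun n => sp z (phi α x y z n (J n))) (by rw [s.phi_zero, map_one])
    (A := fun n => α • sp z (pderiv (z, 1) (P0 (z, 0) (Ph α x y z ψ J n))) +
      ε • sp z (P0 (z, 0) (Sh (z, 0) (Ph α x y z ψ J n)))) (C := shf (E α ε)) (N := N)
    (fun k hk => ?_) n hn
  cases k with
  | zero => simp [s.Ph_zero, shf, P0_free (Free.one _), Sh_free (Free.one _)]
  | succ k =>
    have c := main k hk
    rw [s.T3_conv, map_sum, sum_congr rfl (g := fun p =>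
      (α • sp z (pderiv (z, 1) (P0 (z, 0) (Ph α x y z ψ J p.1))) +
        ε • sp z (P0 (z, 0) (Sh (z, 0) (Ph α x y z ψ J p.1)))) * sp z (phi α x y z p.2 (J p.2)) +
        FF α x y z p.1 * α • sp z (pderiv (z, 1) (phi α x y z p.2 (J p.2)))) fun p hp => by
      have d := s.free (x := x) (y := y) (z := z) ((snd_le' hp).trans hk) z
      rw [ZT_apply, P0_mul_free _ d, Sh, W_mul_free _ _ d, ← Sh, P0_mul_free _ d,
        Derivation.leibniz, ← sp_Ph s hα hxy hxz hyz ((fst_le' hp).trans hk)]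
      simp only [smul_eq_mul, map_add, map_mul, smul_eq_C_mul]
      ring, sum_add_distrib, add_mul, map_add, mul_assoc, PowerSeries.coeff_mul,
      PowerSeries.coeff_mul, Nat.sum_antidiagonal_succ' (f := fun p => FF α x y z p.1 * _),
      s.phi_zero, Derivation.map_one_eq_zero, map_zero, smul_zero, mul_zero, zero_add,
      add_comm] at c
    rw [conv_shf _ fun n => sp z (phi α x y z n (J n))]
    refine (add_left_cancel (Eq.trans (congrArg (· + _) (sum_congr rfl fun p hp => ?_)) c)).trans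
      (sum_congr rfl fun p hp => ?_)
    · rw [s.sp_deriv hα hxy hxz hyz (by have := snd_le' hp; omega), PowerSeries.coeff_mk,
        PowerSeries.coeff_mul]
      refine congrArg _ (sum_congr rfl fun q hq => ?_)
      rw [coeff_cw, PowerSeries.coeff_mk, hω s _ (by have := snd_le' hp; have := snd_le' hq; omega)]
      rfl
    · rw [PowerSeries.coeff_mk, hω s _ (by have := snd_le' hp; omega)]

end Pool.Agent.Lib.MP_fcdd89_co.Tw
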