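import Pool.Agent.Lib.MP_fcdd89_co.Tw.Alg

/-!
The kernel with two marked points on each side.
-/

set_option autoImplicit false

open Finset MvPolynomial Function

namespace Pool.Agent.Lib.MP_fcdd89_co.Tw

variable {σ : Type} [DecidableEq σ] {A B : σ → Prop} {α ε : ℝ} {p q : ℕ → σ} {w v w' v' u : σ}

/-- Two disjoint sets of variables and an extra variable. -/
structure Two (A B : σ → Prop) (p q : ℕ → σ) (w v w' v' u : σ) : Prop where
  h : Ok p w v
  k : Ok q w' v'
  hp : ∀ i, A (p (i + 1))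
  hw : A w
  hv : A v
  hq : ∀ i, B (q (i + 1))
  hw' : B w'
  hv' : B v'
  dis : ∀ t, A t → ¬ B t
  hu : ¬ A u
  hu' : ¬ B u

theorem Two.symm (t : Two A B p q w v w' v' u) : Two B A q p w' v' w v u :=
  ⟨t.k, t.h, t.hq, t.hw', t.hv', t.hp, t.hw, t.hv, fun s a b => t.dis s b a, t.hu', t.hu⟩

theorem Two.flip (t : Two A B p q w v w' v' u) : Two A B p q v w v' w' u :=
  ⟨t.h.symm, t.k.symm, t.hp, t.hv, t.hw, t.hq, t.hv', t.hw', t.dis, t.hu, t.hu'⟩

/-- The exchange of the marks on both sides. -/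
noncomputable def ss (w v w' v' : σ) : MvPolynomial σ ℝ →ₐ[ℝ] MvPolynomial σ ℝ :=
  (sw w v).comp (sw w' v')

theorem ss_apply (f : MvPolynomial σ ℝ) : ss w v w' v' f = sw w v (sw w' v' f) := rfl

theorem ss_flip : ss v w v' w' = ss w v w' v' := by rw [ss, ss, sw_comm v, sw_comm v']

variable (t : Two A B p q w v w' v' u)
include t

theorem Two.sw_sw' (f : MvPolynomial σ ℝ) : sw w v (sw w' v' f) = sw w' v' (sw w v f) :=
  (act_sw t.hw t.hv).comm (act_sw t.hw' t.hv') t.dis f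

theorem Two.ss_symm : ss w' v' w v = ss w v w' v' := AlgHom.ext fun f => (t.sw_sw' f).symm

theorem Two.sw_out {s : σ} (h : ¬ A s) : sw w v (X s) = X s :=
  Tw.sw_out (fun c => h (c ▸ t.hw)) fun c => h (c ▸ t.hv)

theorem Two.ss_w : ss w v w' v' (X w) = X v := by
  rw [ss_apply, t.symm.sw_out (t.dis _ t.hw), sw_left]

theorem Two.ss_v : ss w v w' v' (X v) = X w := by
  rw [← ss_flip, t.flip.ss_w]

theorem Two.ss_w' : ss w v w' v' (X w') = X v' := t.ss_symm ▸ t.symm.ss_w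

theorem Two.ss_v' : ss w v w' v' (X v') = X w' := t.ss_symm ▸ t.symm.ss_v

theorem Two.ss_u : ss w v w' v' (X u) = X u := by
  rw [ss_apply, t.symm.sw_out t.hu', t.sw_out t.hu]

theorem Two.ss_ss (f : MvPolynomial σ ℝ) : ss w v w' v' (ss w v w' v' f) = f := by
  rw [ss_apply, ss_apply, ← t.sw_sw', sw_sw, sw_sw]

theorem Two.ss_Je (f : MvPolynomial σ ℝ) :
    ss w v w' v' (Je α ε p w v f) = Je α ε p v w (ss w v w' v' f) := by
  rw [ss_apply, ss_apply, ← sw_Je t.h]
  exact congrArg _ ((act_Je t.h t.hp t.hw t.hv).comm (act_sw t.hw' t.hv') t.dis f).symm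

theorem Two.ss_Jf (f : MvPolynomial σ ℝ) :
    ss w v w' v' (Jf α ε p w v f) = Jf α ε p v w (ss w v w' v' f) := by
  rw [ss_apply, ss_apply, ← sw_Jf t.h]
  exact congrArg _ ((act_Jf t.h t.hp t.hw t.hv).comm (act_sw t.hw' t.hv') t.dis f).symm

theorem Two.ss_L (f : MvPolynomial σ ℝ) :
    ss w v w' v' (L α p w f) = L α p v (ss w v w' v' f) := by
  rw [ss_apply, ss_apply, ← sw_L t.h]
  exact congrArg _ ((act_L t.h t.hp t.hw).comm (act_sw t.hw' t.hv') t.dis f).symm

theorem Two.step {Φ M K K1 : MvPolynomial σ ℝ} (hΦ : Free v Φ)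
    (h1 : K1 = L α p w Φ + X u * Φ) (hK : K = X u * M + Jf α ε p v w M)
    (hs : ss w v w' v' K = K) :
    X u * (Φ + X v * (X v' * ss w v w' v' M)) +
      Je α ε p w v (Φ + X v * (X v' * ss w v w' v' M)) = K1 + X v * (X v' * K) := by
  have := t.flip.ss_Jf (α := α) (ε := ε) M
  rw [ss_flip] at this
  rw [map_add, Je_free t.h hΦ, Je_v t.h,
    (act_Jf t.h t.hp t.hw t.hv).X_mul fun c => t.dis _ c t.hv', ← this, h1, ← hs, hK, map_add,
    map_mul, t.ss_u]
  ring

theorem Two.Jf_eq {N : MvPolynomial σ ℝ} (hs : ss w v w' v' N = N)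
    (he : Je α ε p w v N = Je α ε q w' v' N) : Jf α ε p w v N = Jf α ε q w' v' N ∧
      Jf α ε p v w N = Jf α ε q v' w' N ∧ sw w v N = sw w' v' N := by
  have a : sw w v N = sw w' v' N := by
    conv_lhs => rw [← hs, ss_apply, sw_sw]
  have b := congrArg (ss w v w' v') he
  have c := t.symm.ss_Je (α := α) (ε := ε) N
  rw [t.ss_symm] at c
  rw [t.ss_Je, c, hs] at b
  exact ⟨by rw [Jf_apply, Jf_apply, he, a],
    by rw [Jf_apply, Jf_apply, b, sw_comm v, sw_comm v', a], a⟩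

variable (hε : ε * ε = (α - 1) * ε + α)
include hε

theorem Two.ss_K {N M : MvPolynomial σ ℝ} (hs : ss w v w' v' N = N)
    (hM : X u * N + Je α ε p w v N = M) :
    ss w v w' v' (X u * M + Jf α ε p v w M) = X u * M + Jf α ε p v w M := by
  have a := t.flip.ss_Jf (α := α) (ε := ε)
  rw [ss_flip] at a
  simp only [← hM, map_add, map_mul, t.ss_u, a, t.ss_Je, hs,
    (act_Jf t.h.symm t.hp t.hv t.hw).X_mul t.hu]
  rw [JJ t.h hε, Jf_apply N, Jf_apply N, sw_comm v]
  ring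

theorem Two.F1 {N M : MvPolynomial σ ℝ} (hs : ss w v w' v' N = N)
    (hM : X u * N + Je α ε p w v N = M) (hM' : X u * N + Je α ε q w' v' N = M) :
    Jf α ε p v w M = Jf α ε q v' w' M := by
  have a := (t.Jf_eq hs (add_left_cancel (hM.trans hM'.symm))).2.1
  rw [← hM', map_add, map_add, (act_Jf t.h.symm t.hp t.hv t.hw).X_mul t.hu,
    (act_Jf t.k.symm t.hq t.hv' t.hw').X_mul t.hu',
    (act_Jf t.h.symm t.hp t.hv t.hw).comm (act_Je t.k t.hq t.hw' t.hv') t.dis, a, JJ t.k hε,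
    star t.k.symm]

theorem Two.main {Ω Φ M N : ℕ → MvPolynomial σ ℝ} {n₀ : ℕ}
    (h0 : ss w v w' v' (Φ 0) = Φ 0) (hΩ : ∀ n < n₀, ss w v w' v' (Ω n) = Ω n)
    (hΦ : ∀ n < n₀, Φ (n + 1) = Ω n + X w * (X w' * (L α p w (Φ n) + X u * Φ n)))
    (hL : ∀ n ≤ n₀, L α p w (Φ n) = L α q w' (Φ n))
    (hv : ∀ n ≤ n₀, Free v (Φ n)) (hv' : ∀ n ≤ n₀, Free v' (Φ n))
    (M0 : M 0 = L α p w (Φ 0) + X u * Φ 0)
    (M1 : ∀ n < n₀, M (n + 1) = L α p w (Φ (n + 1)) + X u * Φ (n + 1) +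
      X v * (X v' * (X u * M n + Jf α ε p v w (M n))))
    (N0 : N 0 = Φ 0) (N1 : ∀ n < n₀, N (n + 1) = Φ (n + 1) + X v * (X v' * ss w v w' v' (M n)))
    {n : ℕ} (hn : n ≤ n₀) :
    L α p w (dd ε p w v (dd ε q w' v' (N n))) = L α q w' (dd ε p w v (dd ε q w' v' (N n))) ∧
      P0 w (dd ε p w v (dd ε q w' v' (N n))) = Cw p w (Cw q w' (Φ n) + ε • (X w' * Φ n)) := by
  have key : ∀ n ≤ n₀, ss w v w' v' (N n) = N n ∧ X u * N n + Je α ε p w v (N n) = M n ∧
      X u * N n + Je α ε q w' v' (N n) = M n := fun n => by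
    induction n using Nat.strong_induction_on with
    | _ n ih =>
      intro hn
      cases n with
      | zero =>
        rw [N0, M0, Je_free t.h (hv 0 hn), Je_free t.k (hv' 0 hn), ← hL 0 hn, add_comm]
        exact ⟨h0, rfl, rfl⟩
      | succ n =>
        obtain ⟨a, b, c⟩ := ih n n.lt_succ_self (by omega)
        have s := t.ss_K hε a b
        refine ⟨?_, ?_, ?_⟩
        · rw [N1 n hn, hΦ n hn]
          generalize hK : L α p w (Φ n) + X u * Φ n = K at M1 ⊢
          simp only [map_add, map_mul, t.ss_w, t.ss_w', t.ss_v, t.ss_v', t.ss_ss, hΩ n hn]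
          cases n with
          | zero =>
            rw [M0, hK]
            ring
          | succ n =>
            obtain ⟨a, b, -⟩ := ih n (by omega) (by omega)
            rw [M1 n (by omega), hK, map_add (ss w v w' v') _ (X v * _), map_mul, map_mul,
              t.ss_K hε a b, t.ss_v, t.ss_v']
            ring
        · rw [N1 n hn, M1 n hn]
          exact t.step (hv _ hn) rfl rfl s
        · have := t.symm.step (α := α) (ε := ε) (M := M n) (hv' _ hn) rfl rfl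
            (by rw [t.ss_symm, ← t.F1 hε a b c, s])
          rw [t.ss_symm, ← t.F1 hε a b c, ← hL _ hn, mul_left_comm (X v'), mul_left_comm (X v')]
            at this
          rw [N1 n hn, M1 n hn, this]
  obtain ⟨a, b, c⟩ := key n hn
  obtain ⟨d, -, e⟩ := t.Jf_eq a (add_left_cancel (b.trans c.symm))
  have dY := act_dd (ε := ε) t.hq t.hw' t.hv'
  constructor
  · rw [L_dd t.h hε, (act_Jf t.h t.hp t.hw t.hv).comm dY t.dis, d, ← L_dd t.k hε,
      (act_dd t.hp t.hw t.hv).comm (act_L t.k t.hq t.hw') t.dis]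
  · have f : P0 v (N n) = Φ n := by
      cases n with
      | zero => rw [N0, P0_free (hv 0 hn)]
      | succ n => rw [N1 n hn, map_add, P0_X_mul, add_zero, P0_free (hv _ hn)]
    have g := (act_sw t.hw t.hv).comm dY t.dis (N n)
    have i := (act_P0 t.hv).comm (act_sw t.hw' t.hv') t.dis (N n)
    simp only [AlgHom.toLinearMap_apply] at g i
    rw [P0_dd t.h, g, e, (act_P0 t.hv).comm dY t.dis, i, f, dd_sw t.k (hv' n hn)]

end Pool.Agent.Lib.MP_fcdd89_co.Tw
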