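import Pool.Agent.Lib.MP_fcdd89_co.Tw.Out

/-!
Marginal sums over a fixed length with two marked boxes.
-/

set_option autoImplicit false

open Finset MvPolynomial Function
open Finsupp (single weight mapDomain)

namespace Pool.Agent.Lib.MP_fcdd89_co.Tw

variable {n : ℕ} {x y z : Fin 3}

theorem sum_term (hxy : y ≠ x) (hxz : z ≠ x) (hyz : z ≠ y) (a b : Ix) (l : ℕ) {c : Mo → ℝ}
    {T : Tri →ₗ[ℝ] Tri} (hT : ∀ m, T (monomial m 1) = c m • monomial m 1) {Q : ℝ → Tri}
    (hQ : Pos Q) (k : ℕ) (he : ∀ α : ℝ, 0 < α → ∀ θ, IsJack α θ →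
      (α * n) • sp z (T (PowerSeries.coeff n (PowerSeries.logOf (series α θ)))) = (k : ℝ) • Q α) :
    ∃ P : Polynomial ℕ, ∀ α : ℝ, 0 < α → ∀ θ, IsJack α θ →
      ∑ ν : n.Partition with ν.parts.card = l, c (E3 x y z a b (toF ν)) * (α * n *
        coeff (E3 x y z a b (toF ν)) (PowerSeries.coeff n (PowerSeries.logOf (series α θ)))) =
      k * Polynomial.aeval (α - 1) P := by
  obtain ⟨P, hP⟩ := hQ.coeff (E3 x y z a b (single 0 l))
  refine ⟨P, fun α hα θ h => ?_⟩
  have m := log_mem (Hz z) Hz_mul (series_zero hα h) (fun k => by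
    obtain ⟨ψ, J, s⟩ := exists_sys hα k
    rw [s.series_phi hα h hxy hxz hyz le_rfl]
    exact (s.lev k le_rfl).phi_mem hxz hyz) n
  have e := extractD hxy hxz hyz a b l hT m
  rw [← hP, ← smul_eq_mul (k : ℝ), ← coeff_smul, ← he α hα θ h, coeff_smul, ← e, smul_eq_mul,
    mul_sum]
  exact sum_congr rfl fun ν _ => by ring

theorem marg (hxy : y ≠ x) (hxz : z ≠ x) (hyz : z ≠ y) (a b : Ix) (n l : ℕ) :
    (∃ P : Polynomial ℕ, ∀ α : ℝ, 0 < α → ∀ θ, IsJack α θ →
      ∑ ν : n.Partition with ν.parts.card = l, (2 * ν.parts.count 2 : ℝ) * (α * n *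
        coeff (E3 x y z a b (toF ν)) (PowerSeries.coeff n (PowerSeries.logOf (series α θ)))) =
      n * Polynomial.aeval (α - 1) P) ∧
    ∃ P : Polynomial ℕ, ∀ α : ℝ, 0 < α → ∀ θ, IsJack α θ →
      ∑ ν : n.Partition with ν.parts.card = l,
        (ν.parts.count 1 * (ν.parts.count 1 - 1) : ℝ) * (α * n *
        coeff (E3 x y z a b (toF ν)) (PowerSeries.coeff n (PowerSeries.logOf (series α θ)))) =
      n * Polynomial.aeval (α - 1) P := by
  obtain rfl | ⟨n, rfl⟩ : n = 0 ∨ ∃ m, n = m + 1 := by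
    rcases n with _ | m
    · exact .inl rfl
    · exact .inr ⟨m, rfl⟩
  · exact ⟨⟨0, by simp⟩, ⟨0, by simp⟩⟩
  obtain ⟨A, B, pA, pB, hAB⟩ := two_pos hxy hxz hyz n
  have cc : ∀ {T : Tri →ₗ[ℝ] Tri}, Act (fun s : Fin 3 × ℕ => s.1 = z) T → ∀ f,
      T (Cl x (Cl y f)) = Cl x (Cl y (T f)) := fun hT f => by
    rw [hT.comm act_Cl (dis hxz.symm), hT.comm act_Cl (dis hyz.symm)]
  have dl : ∀ α : ℝ, 0 < α → ∀ θ, IsJack α θ → ∃ F : Tri,
      (∀ j : ℕ, (α * (j + 1 : ℕ)) • pderiv (z, j + 1)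
        (PowerSeries.coeff (n + 1) (PowerSeries.logOf (series α θ))) = Kx (z, 0) j (Cl x (Cl y F))) ∧
      sp z (P0 (z, 0) F) = FF α x y z n ∧ sp z (pderiv (z, 1) (P0 (z, 0) F)) = A α ∧
      sp z (P0 (z, 0) (Sh (z, 0) F)) = B α ∧
      (α * (n + 1 : ℕ)) • sp z (PowerSeries.coeff (n + 1) (PowerSeries.logOf (series α θ))) =
        Cl x (Cl y (PowerSeries.coeff n (k1 α x y z))) := fun α hα θ h => by
    obtain ⟨ψ, J, s⟩ := exists_sys hα (n + 1)
    have m := log_mem (Hz z) Hz_mul (series_zero hα h) (fun k => by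
      obtain ⟨ψ, J, s⟩ := exists_sys hα k
      rw [s.series_phi hα h hxy hxz hyz le_rfl]
      exact (s.lev k le_rfl).phi_mem hxz hyz) (n + 1)
    have e := hAB α hα _ ψ J s n.le_succ
    refine ⟨Ph α x y z ψ J n, fun j => ?_, sp_Ph s hα hxy hxz hyz n.le_succ, e.1, e.2, ?_⟩
    · rw [← Kx_Dr j m.1, Dr_log s hα h hxz.symm hyz.symm hxy le_rfl, Kx_X_mul, Ph_rot]
    · have c := sp_Ph s hα hxy hxz hyz le_rfl
      have d := s.Ph_P0 (x := z) (y := x) (z := y) hα hxz.symm hyz.symm le_rfl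
      rw [Ph_rot] at d
      rw [d, FF_k1, ← mul_assoc, map_mul, map_mul, sp, rename_X, rename_X, if_neg hxz.symm,
        if_neg hyz.symm, ← sp] at c
      rw [← map_smul, s.log_eq hα h hxy hxz hyz le_rfl, ← mul_left_cancel₀
        (mul_ne_zero (X_ne_zero _) (X_ne_zero _)) c]
      exact cc act_sp _
  have eu : ∀ (j : ℕ) (m : Mo), Eu (z, j) (monomial m 1) = (m (z, j) : ℝ) • monomial m 1 :=
    fun j m => by
      rw [Nat.cast_smul_eq_nsmul]
      exact X_mul_pderiv_monomial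
  constructor
  · have r := sum_term (n := n + 1) hxy hxz hyz a b l (c := fun m => 2 * m (z, 2))
      (T := (2 : ℝ) • Eu (z, 2)) (fun m => by rw [LinearMap.smul_apply, eu 2, smul_smul])
      ((Pos.X (z, 0)).mul (pos_Cl (pos_Cl pB y) x)) (n + 1) fun α hα θ h => by
        obtain ⟨F, e, -, -, c, -⟩ := dl α hα θ h
        have := congrArg (sp z) ((e 1).trans (Kx_one _ _))
        have d := cc (act_sp.comp (act_Pmk.comp act_Smk)) F
        simp only [AlgHom.toLinearMap_apply, LinearMap.comp_apply] at d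
        rw [d, c, map_smul] at this
        rw [LinearMap.smul_apply, Eu_apply, map_smul, sp_X, ← this]
        simp only [smul_eq_C_mul, map_mul, Nat.reduceAdd, Nat.cast_ofNat]
        ring
    simpa only [E3_z hxz hyz] using r
  · have r := sum_term (n := n + 1) hxy hxz hyz a b l
      (c := fun m => m (z, 1) * (m (z, 1) - 1)) (T := Eu (z, 1) ∘ₗ Eu (z, 1) - Eu (z, 1))
      (fun m => by rw [LinearMap.sub_apply, LinearMap.comp_apply, eu 1, map_smul, eu 1, smul_smul,
        mul_sub, mul_one, sub_smul])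
      ((Pos.X (z, 0)).mul ((Pos.X (z, 0)).mul (pos_Cl (pos_Cl pA y) x))) (n + 1)
      fun α hα θ h => by
        obtain ⟨F, e, -, c, -⟩ := dl α hα θ h
        have := congrArg (fun f => sp z (pderiv (z, 1) f)) ((e 0).trans (cc act_Pmk F))
        have d := cc (act_sp.comp (act_dmk 1)) (P0 (z, 0) F)
        simp only [AlgHom.toLinearMap_apply, LinearMap.comp_apply, Derivation.coeFn_coe] at d this
        rw [d, c, Derivation.map_smul, map_smul] at this
        simp only [LinearMap.sub_apply, LinearMap.comp_apply, Eu_apply, Derivation.leibniz,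
          pderiv_X_self, smul_eq_mul, mul_add, map_sub, map_add, sp_X, mul_one, ← this]
        simp only [smul_eq_C_mul, map_mul, Nat.cast_one, zero_add, map_one]
        ring
    simpa only [E3_z hxz hyz] using r

theorem part_two (κ : Nat.Partition 2) : κ.parts = {2} ∨ κ.parts = {1, 1} := by
  have h3 := κ.parts_sum
  have h4 : ∀ i ∈ κ.parts, 0 < i := fun i hi => κ.parts_pos hi
  generalize κ.parts = ρ at h3 h4
  have := Multiset.card_nsmul_le_sum (a := 1) h4
  rw [smul_eq_mul, mul_one] at this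
  obtain e | e | e : ρ.card = 0 ∨ ρ.card = 1 ∨ ρ.card = 2 := by omega
  · rw [Multiset.card_eq_zero.1 e] at h3
    simp at h3
  · obtain ⟨i, rfl⟩ := Multiset.card_eq_one.1 e
    rw [Multiset.sum_singleton] at h3
    exact .inl (by rw [h3])
  · obtain ⟨i, j, rfl⟩ := Multiset.card_eq_two.1 e
    have := h4 i (by simp)
    have := h4 j (by simp)
    rw [Multiset.insert_eq_cons, Multiset.sum_cons, Multiset.sum_singleton] at h3
    obtain rfl : i = 1 := by omega
    obtain rfl : j = 1 := by omega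
    exact .inr rfl

theorem marked_two (hxy : y ≠ x) (hxz : z ≠ x) (hyz : z ≠ y) (n l : ℕ) (a b : Ix)
    (κ : Nat.Partition 2) :
    ∃ P : Polynomial ℕ, ∀ α : ℝ, 0 < α → ∀ θ, IsJack α θ →
      ∑ ν : n.Partition with ν.parts.card = l, ((∏ i ∈ κ.parts.toFinset, i ^ κ.parts.count i *
        (ν.parts.count i).descFactorial (κ.parts.count i) : ℕ) : ℝ) * (α * n *
        coeff (E3 x y z a b (toF ν)) (PowerSeries.coeff n (PowerSeries.logOf (series α θ)))) =
      n * Polynomial.aeval (α - 1) P := by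
  obtain ⟨⟨P, hP⟩, Q, hQ⟩ := marg hxy hxz hyz a b n l
  rcases part_two κ with e | e <;> rw [e]
  · refine ⟨P, fun α hα θ h => (sum_congr rfl fun ν _ => ?_).trans (hP α hα θ h)⟩
    congr 1
    simp
  · refine ⟨Q, fun α hα θ h => (sum_congr rfl fun ν _ => ?_).trans (hQ α hα θ h)⟩
    congr 1
    have : ∀ m : ℕ, ((m.descFactorial 2 : ℕ) : ℝ) = m * (m - 1) := fun m => by
      cases m with
      | zero => simp
      | succ m => simp [Nat.descFactorial]; ring
    simpa using this (ν.parts.count 1)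

end Pool.Agent.Lib.MP_fcdd89_co.Tw
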