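import Pool.Agent.Lib.MP_fcdd89_co.Tw.Jck

/-!
Extraction of the coefficients in which one partition has a large part.
-/

set_option autoImplicit false

open Finset MvPolynomial Function
open Finsupp (single weight mapDomain)

namespace Pool.Agent.Lib.MP_fcdd89_co.Tw

variable {n N : ℕ} {α : ℝ} {x y z : Fin 3} {ψ J : ℕ → Ix → R}
  {θ : ∀ n : ℕ, n.Partition → n.Partition → ℝ}

theorem T3_rot {ψ : Ix → R} : T3 α z x y n ψ = T3 α x y z n ψ :=
  sum_congr rfl fun _ _ => by rw [mul_rotate]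

theorem phi_rot {J : Ix → R} : phi α z x y n J = phi α x y z n J :=
  sum_congr rfl fun _ _ => by rw [mul_rotate]

theorem Ph_rot : Ph α z x y ψ J = Ph α x y z ψ J := by
  simp only [Ph, T3_rot (x := x), phi_rot (x := x)]

theorem Dr_log (s : Sys α N ψ J) (hα : 0 < α) (h : IsJack α θ) (hxy : y ≠ x) (hxz : z ≠ x)
    (hyz : z ≠ y) (hn : n + 1 ≤ N) :
    Dr α (Prod.mk x) (PowerSeries.coeff (n + 1) (PowerSeries.logOf (series α θ))) =
      X (x, 0) * Cl y (Cl z (Ph α x y z ψ J n)) := by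
  have a := log_der (Dr α (Prod.mk x)) (series_zero hα h)
  exact conv_cancel (F := fun n => phi α x y z n (J n)) s.phi_zero
    (A := fun n => Dr α (Prod.mk x) (PowerSeries.coeff n (PowerSeries.logOf (series α θ))))
    (C := Gx x y z (Ph α x y z ψ J)) (N := N) (fun k hk => by
      have c := congrArg (PowerSeries.coeff k) a
      rw [mul_comm, PowerSeries.coeff_mul, PowerSeries.coeff_mk,
        s.series_phi hα h hxy hxz hyz hk, ← Lx_free α (s.free hk x),
        s.Lx_phi hα hxy hxz hyz hk] at c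
      rw [← c]
      refine sum_congr rfl fun p hp => ?_
      rw [PowerSeries.coeff_mk, s.series_phi hα h hxy hxz hyz ((snd_le' hp).trans hk)])
    (n + 1) hn

/-- The coefficient of the `k`-th power of a variable. -/
noncomputable def Kx (s : Fin 3 × ℕ) (k : ℕ) : Tri →ₗ[ℝ] Tri := W s fun a => if a = k then 1 else 0

theorem Kx_X_mul (s : Fin 3 × ℕ) (k : ℕ) (f : Tri) : Kx s (k + 1) (X s * f) = Kx s k f := by
  have : Kx s (k + 1) ∘ₗ LinearMap.mulLeft ℝ (X s) = Kx s k := lin_ext_free s fun a q hq => by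
    rw [LinearMap.comp_apply, LinearMap.mulLeft_apply, ← mul_assoc, ← pow_succ', Kx, Kx,
      W_pow_mul _ _ hq, W_pow_mul _ _ hq]
    simp
  exact LinearMap.congr_fun this f

theorem Kx_one (s : Fin 3 × ℕ) (f : Tri) : Kx s 1 f = P0 s (Sh s f) := by
  conv_lhs => rw [← P0_add_Sh s f, map_add, Kx_X_mul s 0, Kx, W_free _ (free_P0 s f)]
  simp [Kx, P0]

theorem Kx_Dr (k : ℕ) {f : Tri} (hf : Free (z, 0) f) :
    Kx (z, 0) (k + 1) (Dr α (Prod.mk z) f) = (α * (k + 1 : ℕ)) • pderiv (z, k + 1) f := by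
  refine free_ind (P := fun f => Kx (z, 0) (k + 1) (Dr α (Prod.mk z) f) =
    (α * (k + 1 : ℕ)) • pderiv (z, k + 1) f) (by simp)
    (fun f g a b => by simp only [map_add, a, b, smul_add])
    (fun c f a => by rw [Derivation.map_smul, Derivation.map_smul, map_smul, a, smul_comm])
    (fun g s hs hg a => ?_) hf
  rw [Derivation.leibniz, Derivation.leibniz, map_add, smul_eq_mul, smul_eq_mul, smul_eq_mul,
    smul_eq_mul, mul_comm g, mul_comm (X s), Kx, W_mul_free _ _ hg, W_mul_free _ _ (Free.X hs),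
    ← Kx, a, smul_add, smul_mul_assoc, mul_comm (X s), mul_comm g, ← smul_mul_assoc]
  congr 2
  obtain ⟨b, j⟩ := s
  by_cases e : z = b
  · subst e
    have hj : j ≠ 0 := fun e => hs (by rw [e])
    rw [Dr_e α (mk_inj z), dv, if_neg hj, map_smul, Kx, W_pow, pderiv_X, Pi.single_apply]
    by_cases c : j = k + 1 <;> simp [c]
  · rw [Dr_out α fun k' c => e (congrArg Prod.fst c), map_zero,
      pderiv_X_of_ne fun c => e (congrArg Prod.fst c).symm]
    simp

theorem extractD (hxy : y ≠ x) (hxz : z ≠ x) (hyz : z ≠ y) (a b : Ix) (l : ℕ) {c : Mo → ℝ}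
    {T : Tri →ₗ[ℝ] Tri} (hT : ∀ m, T (monomial m 1) = c m • monomial m 1) {f : Tri}
    (hf : f ∈ Hz z n) :
    ∑ ν : n.Partition with ν.parts.card = l,
      c (E3 x y z a b (toF ν)) * coeff (E3 x y z a b (toF ν)) f =
      coeff (E3 x y z a b (single 0 l)) (sp z (T f)) := by
  refine lin_ind (P := fun f => ∑ ν : n.Partition with ν.parts.card = l,
      c (E3 x y z a b (toF ν)) * coeff (E3 x y z a b (toF ν)) f =
      coeff (E3 x y z a b (single 0 l)) (sp z (T f))) (by simp)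
    (fun f g p q => by simp only [coeff_add, mul_add, sum_add_distrib, map_add, p, q])
    (fun c f p => by simp only [coeff_smul, map_smul, mul_smul_comm, ← smul_sum, p])
    fun m hm => ?_
  obtain ⟨a', b', c', rfl⟩ := E3_surj hxy hxz hyz m
  have c0 : c' 0 = 0 := by simpa [E3_apply, hxz.symm, hyz.symm] using hf.1 _ hm
  have c1 : sz c' = n := by
    have := hf.2 hm
    simp only [E3, map_add, weight_mapDomain] at this
    simpa [Finsupp.weight_apply, hxz.symm, hyz.symm, sz] using this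
  obtain ⟨ν, rfl⟩ := exists_toF c0 c1
  have s : mapDomain (fun s : Fin 3 × ℕ => if s.1 = z then (z, 0) else s) (E3 x y z a' b' (toF ν)) =
      E3 x y z a' b' (single 0 ν.parts.card) := by
    simp only [E3, Finsupp.mapDomain_add, ← Finsupp.mapDomain_comp, Function.comp_def, hxz.symm,
      hyz.symm, if_false, if_true, Finsupp.mapDomain_single]
    rw [toF, mapDomain_ms, Multiset.map_const']
    congr 1
    ext s
    simp [Multiset.count_replicate, Finsupp.single_apply]
  rw [hT, map_smul, sp, rename_monomial, s]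
  simp only [coeff_monomial, coeff_smul, E3_inj hxy hxz hyz, toF_inj.eq_iff,
    (Finsupp.single_injective 0).eq_iff]
  by_cases p : a' = a ∧ b' = b
  · simp [p]
  · simp [p]

theorem part_unique {ν ν' : n.Partition} {ρ : Multiset ℕ} (h : ρ ≤ ν.parts) (h' : ρ ≤ ν'.parts)
    (c : ν.parts.card = ρ.card + 1) (c' : ν'.parts.card = ρ.card + 1) : ν' = ν := by
  obtain ⟨t, ht⟩ := Multiset.le_iff_exists_add.1 h
  obtain ⟨t', ht'⟩ := Multiset.le_iff_exists_add.1 h'
  rw [ht, Multiset.card_add, add_right_inj, Multiset.card_eq_one] at c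
  rw [ht', Multiset.card_add, add_right_inj, Multiset.card_eq_one] at c'
  obtain ⟨a, rfl⟩ := c
  obtain ⟨a', rfl⟩ := c'
  have e := ν.parts_sum.trans ν'.parts_sum.symm
  rw [ht, ht', Multiset.sum_add, Multiset.sum_add, add_right_inj, Multiset.sum_singleton,
    Multiset.sum_singleton] at e
  exact Nat.Partition.ext (by rw [ht, ht', e])

theorem single_term (hxy : y ≠ x) (hxz : z ≠ x) (hyz : z ≠ y) (a b : Ix) (ν : n.Partition)
    {ρ : Multiset ℕ} (hρ : ρ ≤ ν.parts) (hl : ν.parts.card = ρ.card + 1) {c : Mo → ℝ}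
    (hc : ∀ ν' : n.Partition, c (E3 x y z a b (toF ν')) ≠ 0 → ρ ≤ ν'.parts)
    {T : Tri →ₗ[ℝ] Tri} (hT : ∀ m, T (monomial m 1) = c m • monomial m 1) {Q : ℝ → Tri}
    (hQ : Pos Q) (k : ℕ) (he : ∀ α : ℝ, 0 < α → ∀ θ, IsJack α θ →
      (α * n) • sp z (T (PowerSeries.coeff n (PowerSeries.logOf (series α θ)))) = (k : ℝ) • Q α) :
    ∃ P : Polynomial ℕ, ∀ α : ℝ, 0 < α → ∀ θ, IsJack α θ → c (E3 x y z a b (toF ν)) * (α * n *
      coeff (E3 x y z a b (toF ν)) (PowerSeries.coeff n (PowerSeries.logOf (series α θ)))) =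
      k * Polynomial.aeval (α - 1) P := by
  obtain ⟨P, hP⟩ := hQ.coeff (E3 x y z a b (single 0 (ρ.card + 1)))
  refine ⟨P, fun α hα θ h => ?_⟩
  have m := log_mem (Hz z) Hz_mul (series_zero hα h) (fun k => by
    obtain ⟨ψ, J, s⟩ := exists_sys hα k
    rw [s.series_phi hα h hxy hxz hyz le_rfl]
    exact (s.lev k le_rfl).phi_mem hxz hyz) n
  have e := extractD hxy hxz hyz a b (ρ.card + 1) hT m
  rw [sum_eq_single_of_mem ν (mem_filter.2 ⟨mem_univ _, hl⟩) fun ν' h' k => by
    rw [not_not.1 fun c => k (part_unique hρ (hc ν' c) hl (mem_filter.1 h').2), zero_mul]] at e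
  rw [← hP, ← smul_eq_mul (k : ℝ), ← coeff_smul, ← he α hα θ h, coeff_smul, ← e, smul_eq_mul]
  ring

theorem E3_z (hxz : z ≠ x) (hyz : z ≠ y) (a b : Ix) (ν : n.Partition) (k : ℕ) :
    E3 x y z a b (toF ν) (z, k) = ν.parts.count k := by
  simp [E3_apply, hxz.symm, hyz.symm, toF]

theorem pos_Cl {f : ℝ → Tri} (h : Pos f) (a : Fin 3) : Pos fun α => Cl a (f α) :=
  (((Pos.X (a, 0)).mul h).Bt (e := Prod.mk a)).of_eq fun α => Cl_apply a (f α)

theorem sp_X (k : ℕ) (f : Tri) : sp z (X (z, k) * f) = X (z, 0) * sp z f := by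
  rw [map_mul, sp, rename_X, if_pos rfl]

/-- The Euler operator of a variable. -/
noncomputable def Eu (s : Fin 3 × ℕ) : Tri →ₗ[ℝ] Tri :=
  LinearMap.mulLeft ℝ (X s) ∘ₗ (pderiv s : Derivation ℝ Tri Tri).toLinearMap

theorem Eu_apply (s : Fin 3 × ℕ) (f : Tri) : Eu s f = X s * pderiv s f := rfl

theorem large (hxy : y ≠ x) (hxz : z ≠ x) (hyz : z ≠ y) (a b : Ix) (ν : n.Partition) {k : ℕ}
    (hk : k ∈ ν.parts) (hn : n ≤ k + 2) : ∃ c : ℝ, 0 < c ∧ ∃ (k : ℕ) (P : Polynomial ℕ),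
      ∀ α : ℝ, 0 < α → ∀ θ, IsJack α θ → c * (α * n *
        coeff (E3 x y z a b (toF ν)) (PowerSeries.coeff n (PowerSeries.logOf (series α θ)))) =
      k * Polynomial.aeval (α - 1) P := by
  obtain ⟨ρ, hρ⟩ := Multiset.exists_cons_of_mem hk
  have h1 : ρ ≤ ν.parts := hρ ▸ Multiset.le_cons_self _ _
  have h2 : ν.parts.card = ρ.card + 1 := by rw [hρ, Multiset.card_cons]
  have h3 : k + ρ.sum = n := by rw [← Multiset.sum_cons, ← hρ, ν.parts_sum]
  have h4 : ∀ i ∈ ρ, 0 < i := fun i hi => ν.parts_pos (Multiset.mem_of_le h1 hi)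
  have h5 := ν.parts_pos hk
  obtain ⟨n, rfl⟩ : ∃ m, n = m + 1 := ⟨n - 1, by omega⟩
  obtain ⟨A, B, pA, pB, hAB⟩ := two_pos hxy hxz hyz n
  have cc : ∀ {T : Tri →ₗ[ℝ] Tri}, Act (fun s : Fin 3 × ℕ => s.1 = z) T → ∀ f,
      T (Cl x (Cl y f)) = Cl x (Cl y (T f)) := fun hT f => by
    rw [hT.comm act_Cl (dis hxz.symm), hT.comm act_Cl (dis hyz.symm)]
  have dl : ∀ α : ℝ, 0 < α → ∀ θ, IsJack α θ → ∃ F : Tri,
      (∀ j : ℕ, (α * (j + 1 : ℕ)) • pderiv (z, j + 1)
        (PowerSeries.coeff (n + 1) (PowerSeries.logOf (series α θ))) = Kx (z, 0) j (Cl x (Cl y F))) ∧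
      sp z (P0 (z, 0) F) = FF α x y z n ∧ sp z (pderiv (z, 1) (P0 (z, 0) F)) = A α ∧
      sp z (P0 (z, 0) (Sh (z, 0) F)) = B α ∧
      (α * (n + 1 : ℕ)) • sp z (PowerSeries.coeff (n + 1) (PowerSeries.logOf (series α θ))) =
        Cl x (Cl y (PowerSeries.coeff n (k1 α x y z))) := fun α hα θ h => by
    obtain ⟨ψ, J, s⟩ := exists_sys hα (n + 1)
    have m := log_mem (Hz z) Hz_mul (series_zero hα h) (fun k => by
      obtain ⟨ψ, J, s⟩ := exists_sys hα k
      rw [s.series_phi hα h hxy hxz hyz le_rfl]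
      exact (s.lev k le_rfl).phi_mem hxz hyz) (n + 1)
    have e := hAB α hα _ ψ J s n.le_succ
    refine ⟨Ph α x y z ψ J n, fun j => ?_, sp_Ph s hα hxy hxz hyz n.le_succ, e.1, e.2, ?_⟩
    · rw [← Kx_Dr j m.1, Dr_log s hα h hxz.symm hyz.symm hxy le_rfl, Kx_X_mul, Ph_rot]
    · have c := sp_Ph s hα hxy hxz hyz le_rfl
      have d := s.Ph_P0 (x := z) (y := x) (z := y) hα hxz.symm hyz.symm le_rfl
      rw [Ph_rot] at d
      rw [d, FF_k1, ← mul_assoc, map_mul, map_mul, sp, rename_X, rename_X, if_neg hxz.symm,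
        if_neg hyz.symm, ← sp] at c
      rw [← map_smul, s.log_eq hα h hxy hxz hyz le_rfl, ← mul_left_cancel₀
        (mul_ne_zero (X_ne_zero _) (X_ne_zero _)) c]
      exact cc act_sp _
  have eu : ∀ (j : ℕ) (m : Mo), Eu (z, j) (monomial m 1) = (m (z, j) : ℝ) • monomial m 1 :=
    fun j m => by
      rw [Nat.cast_smul_eq_nsmul]
      exact X_mul_pderiv_monomial
  have h6 : ρ = 0 ∨ ρ = {1} ∨ ρ = {2} ∨ ρ = Multiset.replicate 2 1 := by
    have := Multiset.card_nsmul_le_sum (a := 1) h4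
    rw [smul_eq_mul, mul_one] at this
    obtain e | e | e : ρ.card = 0 ∨ ρ.card = 1 ∨ ρ.card = 2 := by omega
    · exact .inl (Multiset.card_eq_zero.1 e)
    · obtain ⟨i, rfl⟩ := Multiset.card_eq_one.1 e
      have := h4 i (by simp)
      rw [Multiset.sum_singleton] at h3
      obtain rfl | rfl : i = 1 ∨ i = 2 := by omega
      all_goals simp
    · obtain ⟨i, j, rfl⟩ := Multiset.card_eq_two.1 e
      have := h4 i (by simp)
      have := h4 j (by simp)
      rw [Multiset.insert_eq_cons, Multiset.sum_cons, Multiset.sum_singleton] at h3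
      obtain rfl : i = 1 := by omega
      obtain rfl : j = 1 := by omega
      exact .inr (.inr (.inr rfl))
  obtain rfl | rfl | rfl | rfl := h6
  · refine ⟨1, one_pos, 1, single_term hxy hxz hyz a b ν h1 h2 (c := fun _ => 1) (T := .id)
      (fun _ _ => Multiset.zero_le _) (by simp) (pos_Cl (pos_Cl (pos_k1 (x := x) (y := y) (z := z) n) y) x) 1 fun α hα θ h => ?_⟩
    obtain ⟨F, -, -, -, -, e⟩ := dl α hα θ h
    rw [Nat.cast_one, one_smul, LinearMap.id_apply, e]
  · refine ⟨_, ?_, n + 1, single_term hxy hxz hyz a b ν h1 h2 (fun ν' c => ?_) (eu 1)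
      ((Pos.X (z, 0)).mul (pos_Cl (pos_Cl (pos_FF (x := x) (y := y) (z := z) n) y) x)) _ fun α hα θ h => ?_⟩
    · simpa [E3_z hxz hyz, Multiset.count_pos] using h1
    · simpa [E3_z hxz hyz] using c
    · obtain ⟨F, e, c, -⟩ := dl α hα θ h
      have := congrArg (sp z) ((e 0).trans (cc act_Pmk F))
      have d := cc act_sp (P0 (z, 0) F)
      simp only [AlgHom.toLinearMap_apply] at d
      rw [d, c, map_smul] at this
      rw [Eu_apply, sp_X, ← this]
      simp only [smul_eq_C_mul, map_mul, Nat.cast_one, zero_add, map_one]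
      ring
  · refine ⟨_, ?_, n + 1, single_term hxy hxz hyz a b ν h1 h2 (c := fun m => 2 * m (z, 2))
      (T := (2 : ℝ) • Eu (z, 2)) (fun ν' c => ?_) (fun m => by rw [LinearMap.smul_apply, eu 2, smul_smul])
      ((Pos.X (z, 0)).mul (pos_Cl (pos_Cl pB y) x)) _ fun α hα θ h => ?_⟩
    · simpa [E3_z hxz hyz, Multiset.count_pos] using h1
    · simpa [E3_z hxz hyz] using c
    · obtain ⟨F, e, -, -, c, -⟩ := dl α hα θ h
      have := congrArg (sp z) ((e 1).trans (Kx_one _ _))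
      have d := cc (act_sp.comp (act_Pmk.comp act_Smk)) F
      simp only [AlgHom.toLinearMap_apply, LinearMap.comp_apply] at d
      rw [d, c, map_smul] at this
      rw [LinearMap.smul_apply, Eu_apply, map_smul, sp_X, ← this]
      simp only [smul_eq_C_mul, map_mul, Nat.reduceAdd, Nat.cast_ofNat]
      ring
  · have k : ∀ ν' : (n + 1).Partition, (ν'.parts.count 1 : ℝ) * ν'.parts.count 1 -
        ν'.parts.count 1 ≠ 0 → 2 ≤ ν'.parts.count 1 := fun ν' c => by
      by_contra d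
      obtain e | e : ν'.parts.count 1 = 0 ∨ ν'.parts.count 1 = 1 := by omega
      all_goals simp [e] at c
    refine ⟨_, ?_, n + 1, single_term hxy hxz hyz a b ν h1 h2
      (c := fun m => m (z, 1) * m (z, 1) - m (z, 1)) (T := Eu (z, 1) ∘ₗ Eu (z, 1) - Eu (z, 1))
      (fun ν' c => ?_)
      (fun m => by rw [LinearMap.sub_apply, LinearMap.comp_apply, eu 1, map_smul, eu 1, smul_smul,
        sub_smul])
      ((Pos.X (z, 0)).mul ((Pos.X (z, 0)).mul (pos_Cl (pos_Cl pA y) x))) _ fun α hα θ h => ?_⟩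
    · have : (2 : ℝ) ≤ ν.parts.count 1 := by exact_mod_cast Multiset.le_count_iff_replicate_le.2 h1
      simp only [E3_z hxz hyz]
      nlinarith
    · simp only [E3_z hxz hyz] at c
      exact Multiset.le_count_iff_replicate_le.1 (k ν' c)
    · obtain ⟨F, e, -, c, -⟩ := dl α hα θ h
      have := congrArg (fun f => sp z (pderiv (z, 1) f)) ((e 0).trans (cc act_Pmk F))
      have d := cc (act_sp.comp (act_dmk 1)) (P0 (z, 0) F)
      simp only [AlgHom.toLinearMap_apply, LinearMap.comp_apply, Derivation.coeFn_coe] at d this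
      rw [d, c, Derivation.map_smul, map_smul] at this
      simp only [LinearMap.sub_apply, LinearMap.comp_apply, Eu_apply, Derivation.leibniz,
        pderiv_X_self, smul_eq_mul, mul_add, map_sub, map_add, sp_X, mul_one, ← this]
      simp only [smul_eq_C_mul, map_mul, Nat.cast_one, zero_add, map_one]
      ring

theorem nat_of_int (Q : Polynomial ℤ) (P : Polynomial ℕ) {c : ℝ} (hc : 0 < c) (k : ℕ)
    (h : ∀ α : ℝ, 0 < α → c * Polynomial.aeval (α - 1) Q = k * Polynomial.aeval (α - 1) P) :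
    ∃ R : Polynomial ℕ, ∀ β : ℝ, Polynomial.aeval β Q = Polynomial.aeval β R := by
  have e : Polynomial.C c * Q.map (algebraMap ℤ ℝ) =
      Polynomial.C (k : ℝ) * P.map (algebraMap ℕ ℝ) :=
    Polynomial.eq_of_infinite_eval_eq _ _ ((Set.Ioi_infinite (0 : ℝ)).mono fun β hβ => by
      have b : 0 < β := hβ
      simpa only [Set.mem_ofPred_eq, Polynomial.eval_mul, Polynomial.eval_C, add_sub_cancel_right,
        Polynomial.eval_map_algebraMap] using h (β + 1) (by positivity))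
  obtain ⟨R, rfl⟩ : Q ∈ Polynomial.lifts (algebraMap ℕ ℤ) :=
    (Polynomial.lifts_iff_coeff_lifts _).2 fun i => by
      have := congrArg (Polynomial.coeff · i) e
      simp only [Polynomial.coeff_C_mul, Polynomial.coeff_map, eq_intCast, eq_natCast] at this
      have a : (0 : ℝ) ≤ Q.coeff i := nonneg_of_mul_nonneg_right (by rw [this]; positivity) hc
      exact ⟨(Q.coeff i).toNat, Int.toNat_of_nonneg (by exact_mod_cast a)⟩
  exact ⟨R, fun β => Polynomial.aeval_map_algebraMap ℤ β R⟩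

theorem nat_large (μ ν τ : n.Partition) {k : ℕ} (hn : n ≤ k + 2)
    (hk : k ∈ μ.parts ∨ k ∈ ν.parts ∨ k ∈ τ.parts) : ∃ P : Polynomial ℕ, ∀ α : ℝ, 0 < α →
      ∀ θ, IsJack α θ → hcoef α θ μ ν τ = Polynomial.aeval (α - 1) P := by
  obtain ⟨c, hc, j, P, hP⟩ : ∃ c : ℝ, 0 < c ∧ ∃ (j : ℕ) (P : Polynomial ℕ), ∀ α : ℝ, 0 < α →
      ∀ θ, IsJack α θ → c * hcoef α θ μ ν τ = j * Polynomial.aeval (α - 1) P := by
    simp only [hcoef, expo3_eq]
    rcases hk with hk | hk | hk
    · rw [E3, add_rotate]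
      exact large (x := 1) (y := 2) (z := 0) (by decide) (by decide) (by decide) _ _ μ hk hn
    · rw [E3, add_right_comm]
      exact large (x := 0) (y := 2) (z := 1) (by decide) (by decide) (by decide) _ _ ν hk hn
    · exact large (by decide) (by decide) (by decide) _ _ τ hk hn
  obtain ⟨a, ha⟩ := integral n μ ν τ
  obtain ⟨Q, hQ⟩ : ∃ Q : Polynomial ℤ, ∀ α : ℝ, 0 < α → ∀ θ, IsJack α θ →
      hcoef α θ μ ν τ = Polynomial.aeval (α - 1) Q :=
    ⟨∑ j ∈ range (n + 2 + 1) with 2 * j + (μ.parts.card + ν.parts.card + τ.parts.card) ≤ n + 2,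
      .C (a j) * .X ^ (n + 2 - (μ.parts.card + ν.parts.card + τ.parts.card) - 2 * j) *
        (1 + .X) ^ j, fun α hα θ h => by
      rw [ha α hα θ h, map_sum]
      exact sum_congr rfl fun j _ => by simp⟩
  obtain ⟨R, hR⟩ := nat_of_int Q P hc j fun α hα => by
    obtain ⟨θ, h⟩ := exists_jack hα
    rw [← hQ α hα θ h, hP α hα θ h]
  exact ⟨R, fun α hα θ h => (hQ α hα θ h).trans (hR _)⟩

end Pool.Agent.Lib.MP_fcdd89_co.Tw
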