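import Pool.Agent.Lib.MP_fcdd89_co.Tw.Ker

/-!
The connected part of the kernel with two marked points and its positivity.
-/

set_option autoImplicit false

open Finset MvPolynomial Function

namespace Pool.Agent.Lib.MP_fcdd89_co.Tw

variable {σ : Type} [DecidableEq σ]

section PE

variable {f g : ℝ → ℝ → MvPolynomial σ ℝ} {a : ℝ → MvPolynomial σ ℝ} {e : ℕ → σ} {w v : σ}

theorem pos_al (h : Pos a) : Pos fun α => α • a α :=
  ((h.smul 1).add h).of_eq fun α => by module

theorem pos_rename (ρ : σ → σ) (h : Pos a) : Pos fun α => rename ρ (a α) :=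
  Pos.lin (T := fun _ => (rename ρ).toLinearMap)
    (fun m => (Pos.mon _).of_eq fun _ => rename_monomial ρ m 1) h

theorem pos_De (h : Pos a) : Pos fun α => De w v (a α) :=
  Pos.lin (T := fun _ => De w v) (fun m => ((Pos.sum _ fun _ _ =>
    ((Pos.X _).pow _).mul ((Pos.X _).pow _)).mul (Pos.mon _)).of_eq fun _ => W2_mono _ m) h

theorem pos_Dr (he : Injective e) (h : Pos a) : Pos fun α => Dr 1 e (a α) := by
  have k : ∀ s, Pos fun _ => Dr 1 e (X s) := fun s => by
    by_cases a : ∃ k, e k = s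
    · obtain ⟨k, rfl⟩ := a
      simp only [Dr_e _ he, dv]
      split_ifs
      · exact Pos.zero.of_eq (by simp)
      · refine (Pos.sum (range k) fun _ _ => (Pos.X (e 0)).pow k).of_eq fun α => ?_
        rw [sum_const, card_range, one_mul, Nat.cast_smul_eq_nsmul]
    · exact Pos.zero.of_eq fun α => Dr_out 1 (not_exists.1 a)
  refine Pos.lin (T := fun _ => (Dr 1 e).toLinearMap) (fun m => ?_) h
  refine mon_ind (P := fun m => Pos fun _ => Dr 1 e (monomial m 1)) ?_ (fun m s ih => ?_) m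
  · exact Pos.zero.of_eq fun α => (Dr 1 e).map_one_eq_zero
  · exact (((Pos.mon m).mul (k s)).add ((Pos.X s).mul ih)).of_eq fun α => by
      rw [mon_succ, Derivation.leibniz]
      rfl

theorem Dr_scale (he : Injective e) (α : ℝ) {g : MvPolynomial σ ℝ} (hg : Free (e 0) g) :
    Dr α e g = α • Dr 1 e g := by
  refine free_ind (P := fun g => Dr α e g = α • Dr 1 e g) (by simp)
    (fun f g a b => by simp only [map_add, a, b, smul_add])
    (fun c f a => by rw [Derivation.map_smul, Derivation.map_smul, a, smul_comm])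
    (fun g s hs _ a => ?_) hg
  rw [Derivation.leibniz, Derivation.leibniz, a, smul_add, smul_comm α (X s), smul_comm α g]
  congr 2
  by_cases c : ∃ k, e k = s
  · obtain ⟨k, rfl⟩ := c
    have : k ≠ 0 := fun c => hs (by rw [c])
    rw [Dr_e _ he, Dr_e _ he, dv, dv, if_neg this, if_neg this, smul_smul, one_mul]
  · rw [Dr_out _ (not_exists.1 c), Dr_out _ (not_exists.1 c), smul_zero]

/-- Families `α A + ε B` with positive `A` and `B`. -/
def PE (f : ℝ → ℝ → MvPolynomial σ ℝ) : Prop :=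
  ∃ A B : ℝ → MvPolynomial σ ℝ, Pos A ∧ Pos B ∧
    ∀ α ε : ℝ, ε * ε = (α - 1) * ε + α → f α ε = α • A α + ε • B α

theorem PE.of_eq (h : PE f) (k : ∀ α ε, g α ε = f α ε) : PE g := (funext₂ k) ▸ h

theorem PE.zero : PE fun _ _ => (0 : MvPolynomial σ ℝ) := ⟨_, _, .zero, .zero, by simp⟩

theorem PE.al (h : Pos a) : PE fun α _ => α • a α := ⟨_, _, h, .zero, by simp⟩

theorem PE.ep (h : Pos a) : PE fun α ε => ε • a α := ⟨_, _, .zero, h, by simp⟩

theorem PE.add (h : PE f) (k : PE g) : PE fun α ε => f α ε + g α ε := by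
  obtain ⟨A, B, a, b, h⟩ := h
  obtain ⟨A', B', a', b', k⟩ := k
  exact ⟨_, _, a.add a', b.add b', fun α ε c => by
    dsimp only
    rw [h α ε c, k α ε c]
    module⟩

theorem PE.sum {ι : Type} (t : Finset ι) {f : ι → ℝ → ℝ → MvPolynomial σ ℝ}
    (h : ∀ i ∈ t, PE (f i)) : PE fun α ε => ∑ i ∈ t, f i α ε := by
  classical
  induction t using Finset.induction_on with
  | empty => exact PE.zero
  | insert a s ha ih =>
    exact ((h a (mem_insert_self _ _)).add (ih fun i hi => h i (mem_insert_of_mem hi))).of_eq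
      fun α ε => sum_insert ha

theorem PE.lin (T : ℝ → MvPolynomial σ ℝ →ₗ[ℝ] MvPolynomial σ ℝ)
    (hT : ∀ a, Pos a → Pos fun α => T α (a α)) (h : PE f) : PE fun α ε => T α (f α ε) := by
  obtain ⟨A, B, a, b, h⟩ := h
  exact ⟨_, _, hT _ a, hT _ b, fun α ε c => by simp only [h α ε c, map_add, map_smul]⟩

theorem PE.mul (k : Pos a) (h : PE f) : PE fun α ε => a α * f α ε :=
  h.lin (fun α => .mulLeft ℝ (a α)) fun _ => k.mul

theorem PE.eps (h : PE f) : PE fun α ε => ε • f α ε := by
  obtain ⟨A, B, a, b, h⟩ := h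
  exact ⟨_, _, b, (pos_al a).add (b.smul 1), fun α ε c => by
    dsimp only
    rw [h α ε c, smul_add, smul_smul ε ε, c]
    module⟩

theorem PE.Jf (he : Injective (update e 0 w)) (h : PE f) :
    PE fun α ε => Jf α ε e w v (f α ε) :=
  ((h.lin (fun α => L α e w) fun _ k => k.Lx he).add
    (h.lin (fun _ => De w v) fun _ => pos_De).eps).add
    (h.lin (fun _ => (sw w v).toLinearMap) fun _ => pos_rename _).eps

theorem PE.dd (h : PE f) : PE fun α ε => dd ε e w v (f α ε) :=
  (h.lin (fun _ => Cw e v) fun _ k => k.W _ fun _ => Pos.X _).add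
    (h.lin (fun _ => Q w v) fun _ k => k.W _ fun _ => (Pos.X _).pow _).eps

theorem PE.split (h : PE f) : ∃ A B : ℝ → MvPolynomial σ ℝ, Pos A ∧ Pos B ∧ ∀ α, 0 < α →
    ∀ G F : MvPolynomial σ ℝ, (∀ ε : ℝ, ε * ε = (α - 1) * ε + α → α • G + ε • F = f α ε) →
      G = A α ∧ F = B α := by
  obtain ⟨A, B, a, b, h⟩ := h
  refine ⟨A, B, a, b, fun α hα G F k => ?_⟩
  have c := (k α (by ring)).trans (h α α (by ring))
  have d := (k (-1) (by ring)).trans (h α (-1) (by ring))
  have i : F = B α := smul_right_injective _ (show α + 1 ≠ 0 by positivity) (by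
    linear_combination (norm := module) c - d)
  rw [i] at c
  exact ⟨smul_right_injective _ hα.ne' (add_right_cancel c), i⟩

end PE

/-- The solution of a linear recursion with a convolution term. -/
noncomputable def rec2 (a : MvPolynomial σ ℝ) (T : MvPolynomial σ ℝ →ₗ[ℝ] MvPolynomial σ ℝ)
    (g c : PowerSeries (MvPolynomial σ ℝ)) : ℕ → MvPolynomial σ ℝ
  | 0 => 0
  | n + 1 => a * (T (rec2 a T g c n) +
      ∑ i : Fin (n + 1), PowerSeries.coeff (n - i) g * rec2 a T g c i + PowerSeries.coeff n c)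
decreasing_by
  · omega
  · exact i.2

theorem PE.rec2 {a : MvPolynomial σ ℝ} {T : ℝ → ℝ → MvPolynomial σ ℝ →ₗ[ℝ] MvPolynomial σ ℝ}
    {g : ℝ → PowerSeries (MvPolynomial σ ℝ)} {c : ℝ → ℝ → PowerSeries (MvPolynomial σ ℝ)}
    (ha : Pos fun _ => a) (hT : ∀ f, PE f → PE fun α ε => T α ε (f α ε))
    (hg : ∀ n, Pos fun α => PowerSeries.coeff n (g α))
    (hc : ∀ n, PE fun α ε => PowerSeries.coeff n (c α ε)) (n : ℕ) :
    PE fun α ε => rec2 a (T α ε) (g α) (c α ε) n := by
  induction n using Nat.strong_induction_on with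
  | _ n ih =>
    cases n with
    | zero => exact PE.zero.of_eq fun α ε => by rw [Tw.rec2]
    | succ n =>
      exact (PE.mul ha (((hT _ (ih n n.lt_succ_self)).add (PE.sum univ fun i : Fin (n + 1) =>
        fun _ => PE.mul (hg (n - i)) (ih i i.2))).add (hc n))).of_eq fun α ε => by rw [Tw.rec2]

/-- A linear map applied to all the coefficients. -/
noncomputable def cw (T : MvPolynomial σ ℝ →ₗ[ℝ] MvPolynomial σ ℝ) :
    PowerSeries (MvPolynomial σ ℝ) →+ PowerSeries (MvPolynomial σ ℝ) where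
  toFun f := .mk fun n => T (PowerSeries.coeff n f)
  map_zero' := by ext1; simp
  map_add' f g := by ext1; simp

variable {S T U : MvPolynomial σ ℝ →ₗ[ℝ] MvPolynomial σ ℝ} {f g : PowerSeries (MvPolynomial σ ℝ)}

@[simp] theorem coeff_cw (n : ℕ) (f : PowerSeries (MvPolynomial σ ℝ)) :
    PowerSeries.coeff n (cw T f) = T (PowerSeries.coeff n f) :=
  PowerSeries.coeff_mk n fun n => T (PowerSeries.coeff n f)

theorem cw_mul (h : ∀ a n, T (a * PowerSeries.coeff n g) = S a * PowerSeries.coeff n g +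
    a * U (PowerSeries.coeff n g)) (f : PowerSeries (MvPolynomial σ ℝ)) :
    cw T (f * g) = cw S f * g + f * cw U g := by
  ext1
  simp only [coeff_cw, PowerSeries.coeff_mul, map_sum, h, map_add, sum_add_distrib]

theorem cw_mul' (h : ∀ a n, T (a * PowerSeries.coeff n g) = T a * PowerSeries.coeff n g)
    (f : PowerSeries (MvPolynomial σ ℝ)) : cw T (f * g) = cw T f * g := by
  ext1
  simp only [coeff_cw, PowerSeries.coeff_mul, map_sum, h]

theorem cw_alg (ρ : MvPolynomial σ ℝ →ₐ[ℝ] MvPolynomial σ ℝ) (f : PowerSeries (MvPolynomial σ ℝ)) :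
    cw ρ.toLinearMap f = PowerSeries.map ρ.toRingHom f := by
  ext1
  simp

theorem rec2_eq (a : MvPolynomial σ ℝ) (g c : PowerSeries (MvPolynomial σ ℝ)) :
    PowerSeries.mk (rec2 a T g c) = .X * (.C a * (cw T (.mk (rec2 a T g c)) +
      .mk (rec2 a T g c) * g + c)) := by
  ext1 n
  cases n with
  | zero => simp [rec2]
  | succ n =>
    rw [PowerSeries.coeff_succ_X_mul, PowerSeries.coeff_C_mul, map_add, map_add, coeff_cw,
      PowerSeries.coeff_mul, Nat.sum_antidiagonal_eq_sum_range_succ_mk, sum_range,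
      PowerSeries.coeff_mk, rec2]
    simp only [PowerSeries.coeff_mk, mul_comm]

end Pool.Agent.Lib.MP_fcdd89_co.Tw
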